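import Mathlib

/-!
# The slice rank of the diagonal tensor, in terms of subspaces of functions
-/

set_option autoImplicit false

namespace Pool.Agent.TH360.RS

open Finset Module

variable {F I : Type*} [Field F] [Fintype I]

/-- the pairing of functions with the elements of a subspace -/
noncomputable def pair (L : Submodule F (I → F)) : (I → F) →ₗ[F] (L →ₗ[F] F) where
  toFun h :=
    { toFun := fun g => ∑ i, h i * (g : I → F) i
      map_add' := fun g g' => by simp [mul_add, sum_add_distrib]
      map_smul' := fun c g => by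
        simp only [Submodule.coe_smul, Pi.smul_apply, smul_eq_mul, RingHom.id_apply, mul_sum]
        exact sum_congr rfl fun i _ => by ring }
  map_add' h h' := by ext g; simp [add_mul, sum_add_distrib]
  map_smul' c h := by ext g; simp [mul_sum, mul_assoc]

theorem pair_apply (L : Submodule F (I → F)) (h : I → F) (g : L) :
    pair L h g = ∑ i, h i * (g : I → F) i := rfl

theorem finrank_ker_pair (L : Submodule F (I → F)) :
    Fintype.card I ≤ finrank F L + finrank F (LinearMap.ker (pair L)) := by
  have h1 := LinearMap.finrank_range_add_finrank_ker (pair L)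
  have h2 : finrank F (LinearMap.range (pair L)) ≤ finrank F (L →ₗ[F] F) :=
    Submodule.finrank_le _
  have h3 : finrank F (L →ₗ[F] F) = finrank F L := Subspace.dual_finrank_eq
  rw [finrank_fintype_fun_eq_card] at h1
  omega

open Classical in
/-- some function orthogonal to `L` has at least `|I| - dim L` nonzero values -/
theorem exists_support (L : Submodule F (I → F)) : ∃ h : I → F,
    (∀ g ∈ L, ∑ i, h i * g i = 0) ∧
      Fintype.card I ≤ finrank F L + (univ.filter (fun i => h i ≠ 0)).card := by
  classical
  set K := LinearMap.ker (pair L) with hK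
  obtain ⟨h, hhK, hmax⟩ : ∃ h ∈ K, ∀ h' ∈ K, (univ.filter (fun i => h' i ≠ 0)).card ≤
      (univ.filter (fun i => h i ≠ 0)).card := by
    have hb : ∃ n, ∃ h ∈ K, (univ.filter (fun i => h i ≠ 0)).card = n := ⟨_, 0, K.zero_mem, rfl⟩
    have hbd : ∀ n, (∃ h ∈ K, (univ.filter (fun i => h i ≠ 0)).card = n) → n ≤ Fintype.card I := by
      rintro n ⟨h, -, rfl⟩
      exact card_le_univ _
    set s : Set ℕ := {n | ∃ h ∈ K, (univ.filter (fun i => h i ≠ 0)).card = n} with hs
    have hsb : BddAbove s := ⟨Fintype.card I, fun n hn => hbd n hn⟩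
    obtain ⟨h, hh, hn⟩ : sSup s ∈ s := Nat.sSup_mem hb hsb
    exact ⟨h, hh, fun h' hh' => hn ▸ le_csSup hsb ⟨h', hh', rfl⟩⟩
  refine ⟨h, fun g hg => ?_, ?_⟩
  · have := LinearMap.congr_fun (LinearMap.mem_ker.1 hhK) ⟨g, hg⟩
    rwa [pair_apply] at this
  · by_contra hcon
    push Not at hcon
    have h1 : Fintype.card I ≤ finrank F L + finrank F K := finrank_ker_pair L
    set S := univ.filter (fun i => h i ≠ 0) with hS
    -- restriction of `K` to `S`
    let ρ : K →ₗ[F] (S → F) :=
      { toFun := fun g s => (g : I → F) s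
        map_add' := fun _ _ => rfl
        map_smul' := fun _ _ => rfl }
    have h2 := LinearMap.finrank_range_add_finrank_ker ρ
    have h3 : finrank F (LinearMap.range ρ) ≤ S.card := by
      refine (Submodule.finrank_le _).trans ?_
      rw [finrank_fintype_fun_eq_card, Fintype.card_coe]
    have h4 : 0 < finrank F (LinearMap.ker ρ) := by omega
    have h4' : LinearMap.ker ρ ≠ ⊥ := fun hh => by
      rw [hh, finrank_bot] at h4
      exact lt_irrefl _ h4
    obtain ⟨g, hg, hg0⟩ := Submodule.exists_mem_ne_zero_of_ne_bot h4'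
    have hgS : ∀ i ∈ S, (g : I → F) i = 0 := fun i hi =>
      congr_fun (LinearMap.mem_ker.1 hg) ⟨i, hi⟩
    have hgne : ∃ i, (g : I → F) i ≠ 0 := by
      by_contra hh
      push Not at hh
      exact hg0 (by ext i; simpa using hh i)
    obtain ⟨i0, hi0⟩ := hgne
    have hi0S : i0 ∉ S := fun hh => hi0 (hgS i0 hh)
    have hsub : insert i0 S ⊆ univ.filter (fun i => (h + (g : I → F)) i ≠ 0) := by
      intro i hi
      rcases mem_insert.1 hi with rfl | hi
      · have : h i = 0 := by
          by_contra hh
          exact hi0S (mem_filter.2 ⟨mem_univ _, hh⟩)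
        simp [this, hi0]
      · simp [hgS i hi, (mem_filter.1 hi).2]
    have := card_le_card hsub
    rw [card_insert_of_notMem hi0S] at this
    have h5 := hmax (h + (g : I → F)) (K.add_mem hhK g.2)
    omega

open Classical in
/-- **Slice rank of the diagonal.** If the diagonal tensor is a sum of three tensors, the `s`-th
having all its slices in direction `s` in the subspace `Lₛ`, then `|I| ≤ dim L₁ + dim L₂ + dim L₃`. -/
theorem diag_bound (f₁ f₂ f₃ : I → I → I → F) (L₁ L₂ L₃ : Submodule F (I → F))
    (h₁ : ∀ j l, (fun i => f₁ i j l) ∈ L₁) (h₂ : ∀ i l, (fun j => f₂ i j l) ∈ L₂)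
    (h₃ : ∀ i j, (fun l => f₃ i j l) ∈ L₃)
    (hd : ∀ i j l, f₁ i j l + f₂ i j l + f₃ i j l = if i = j ∧ j = l then 1 else 0) :
    Fintype.card I ≤ finrank F L₁ + finrank F L₂ + finrank F L₃ := by
  classical
  obtain ⟨h, hh, hcard⟩ := exists_support L₁
  set S := univ.filter (fun i => h i ≠ 0) with hS
  suffices hSc : S.card ≤ finrank F L₂ + finrank F L₃ by omega
  -- functions supported on `S`
  let ext : (S → F) →ₗ[F] (I → F) :=
    { toFun := fun v i => if hi : i ∈ S then v ⟨i, hi⟩ else 0
      map_add' := fun v w => by funext i; by_cases hi : i ∈ S <;> simp [hi]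
      map_smul' := fun c v => by funext i; by_cases hi : i ∈ S <;> simp [hi] }
  have hext : ∀ (v : S → F) (i : S), ext v i = v i := fun v i => by
    change (if hi : (i : I) ∈ S then v ⟨i, hi⟩ else 0) = v i
    rw [dif_pos i.2]
  let Ψ : (S → F) →ₗ[F] (L₃ →ₗ[F] F) := (pair L₃).comp ext
  have h4 := LinearMap.finrank_range_add_finrank_ker Ψ
  have h5 : finrank F (LinearMap.range Ψ) ≤ finrank F L₃ := by
    refine (Submodule.finrank_le _).trans ?_
    exact (Subspace.dual_finrank_eq (K := F) (V := L₃)).le
  rw [finrank_fintype_fun_eq_card, Fintype.card_coe] at h4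
  have key : ∀ v : S → F, Ψ v = 0 → (fun j => h j * ext v j) ∈ L₂ := by
    intro v hv
    have e3 : ∀ i j, ∑ l, ext v l * f₃ i j l = 0 := fun i j => by
      have := LinearMap.congr_fun hv ⟨_, h₃ i j⟩
      simpa [Ψ, pair_apply] using this
    have e1 : ∀ j l, ∑ i, h i * f₁ i j l = 0 := fun j l => hh _ (h₁ j l)
    have e2 : (fun j => h j * ext v j) =
        ∑ i, ∑ l, (h i * ext v l) • (fun j => f₂ i j l) := by
      funext j
      simp only [Finset.sum_apply, Pi.smul_apply, smul_eq_mul]
      have a1 : ∑ i, ∑ l, (h i * ext v l) * (f₁ i j l + f₂ i j l + f₃ i j l) = h j * ext v j := by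
        simp_rw [hd]
        rw [Finset.sum_eq_single j, Finset.sum_eq_single j]
        · simp
        · intro l _ hl
          rw [if_neg (fun hh => hl hh.2.symm), mul_zero]
        · simp
        · intro i _ hi
          exact Finset.sum_eq_zero fun l _ => by rw [if_neg (fun hh => hi hh.1), mul_zero]
        · simp
      have a2 : ∑ i, ∑ l, (h i * ext v l) * f₁ i j l = 0 := by
        rw [Finset.sum_comm]
        refine Finset.sum_eq_zero fun l _ => ?_
        have : ∑ i, (h i * ext v l) * f₁ i j l = ext v l * ∑ i, h i * f₁ i j l := by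
          rw [mul_sum]; exact sum_congr rfl fun i _ => by ring
        rw [this, e1, mul_zero]
      have a3 : ∑ i, ∑ l, (h i * ext v l) * f₃ i j l = 0 := by
        refine Finset.sum_eq_zero fun i _ => ?_
        have : ∑ l, (h i * ext v l) * f₃ i j l = h i * ∑ l, ext v l * f₃ i j l := by
          rw [mul_sum]; exact sum_congr rfl fun l _ => by ring
        rw [this, e3, mul_zero]
      have a4 : ∑ i, ∑ l, (h i * ext v l) * (f₁ i j l + f₂ i j l + f₃ i j l) =
          ∑ i, ∑ l, (h i * ext v l) * f₁ i j l + ∑ i, ∑ l, (h i * ext v l) * f₂ i j l +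
            ∑ i, ∑ l, (h i * ext v l) * f₃ i j l := by
        rw [← sum_add_distrib, ← sum_add_distrib]
        refine sum_congr rfl fun i _ => ?_
        rw [← sum_add_distrib, ← sum_add_distrib]
        exact sum_congr rfl fun l _ => by ring
      rw [← a1, a4, a2, a3]
      ring
    rw [e2]
    exact L₂.sum_mem fun i _ => L₂.sum_mem fun l _ => L₂.smul_mem _ (h₂ i l)
  let Φ : LinearMap.ker Ψ →ₗ[F] L₂ :=
    { toFun := fun v => ⟨fun j => h j * ext v j, key v (LinearMap.mem_ker.1 v.2)⟩
      map_add' := fun v w => by ext j; simp [mul_add]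
      map_smul' := fun c v => by ext j; simp; ring }
  have hΦ : Function.Injective Φ := by
    intro v w hvw
    ext i
    have h6 : h i * ext v i = h i * ext w i := congr_fun (congr_arg Subtype.val hvw) (i : I)
    rw [hext, hext] at h6
    exact mul_left_cancel₀ (mem_filter.1 i.2).2 h6
  have h6 := LinearMap.finrank_le_finrank_of_injective hΦ
  omega

end Pool.Agent.TH360.RS
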