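import Pool.Agent.TH360.RS.Tri
import Pool.Agent.TH360.RS.Diag

/-!
# Orbits, stabilizers and the bound for free actions
-/

set_option autoImplicit false

namespace Pool.Agent.TH360.RS

open Finset Module

section bar
variable {T X : Type*} [AddCommGroup T] [AddAction T X]

variable (T) in
/-- the representative of an orbit -/
noncomputable def bar (x : X) : X := (Quotient.mk (AddAction.orbitRel T X) x).out

theorem exists_vadd_bar (x : X) : ∃ a : T, a +ᵥ bar T x = x := by
  have h : (AddAction.orbitRel T X) (bar T x) x := Quotient.mk_out x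
  rw [AddAction.orbitRel_apply] at h
  obtain ⟨a, ha⟩ := h
  refine ⟨-a, ?_⟩
  rw [← ha]
  simp

variable (T) in
/-- the coordinate of a point in its orbit -/
noncomputable def co (x : X) : T := (exists_vadd_bar (T := T) x).choose

theorem co_vadd (x : X) : co T x +ᵥ bar T x = x := (exists_vadd_bar (T := T) x).choose_spec

theorem bar_vadd (a : T) (x : X) : bar T (a +ᵥ x) = bar T x := by
  unfold bar
  congr 1
  apply Quotient.sound
  change (AddAction.orbitRel T X) (a +ᵥ x) x
  rw [AddAction.orbitRel_apply]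
  exact ⟨a, rfl⟩

theorem bar_bar (x : X) : bar T (bar T x) = bar T x := by
  conv_rhs => rw [← co_vadd (T := T) x]
  rw [bar_vadd]

theorem mem_orbit_iff (x x' : X) : x' ∈ AddAction.orbit T x ↔ bar T x' = bar T x := by
  constructor
  · rintro ⟨a, rfl⟩
    exact bar_vadd a x
  · intro h
    rw [← co_vadd (T := T) x', h]
    have : bar T x = (-(co T x)) +ᵥ x := by
      have h1 : (-(co T x)) +ᵥ (co T x +ᵥ bar T x) = bar T x := by simp
      rw [co_vadd] at h1
      exact h1.symm
    rw [this, ← add_vadd]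
    exact ⟨_, rfl⟩

end bar

variable {p : ℕ} [Fact p.Prime]

section stab
variable {T X : Type*} [AddCommGroup T] [Module (ZMod p) T] [AddAction T X]

variable (p T) in
/-- the stabilizer as a subspace -/
def stab (x : X) : Submodule (ZMod p) T :=
  AddSubgroup.toZModSubmodule p (AddAction.stabilizer T x)

theorem mem_stab {x : X} {a : T} : a ∈ stab p T x ↔ a +ᵥ x = x := Iff.rfl

theorem stab_vadd (a : T) (x : X) : stab p T (a +ᵥ x) = stab p T x := by
  ext b
  rw [mem_stab, mem_stab, ← add_vadd, add_comm, add_vadd]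
  exact ⟨fun h => by simpa using congr_arg (fun y => -a +ᵥ y) h, fun h => by rw [h]⟩

theorem stab_bar (x : X) : stab p T (bar T x) = stab p T x := by
  conv_rhs => rw [← co_vadd (T := T) x, stab_vadd]

theorem card_orbit [Fintype T] [Fintype X] [DecidableEq X] (x : X) :
    (univ.filter (fun x' : X => bar T x' = bar T x)).card * p ^ finrank (ZMod p) (stab p T x) =
      p ^ finrank (ZMod p) T := by
  classical
  have h := AddAction.card_orbit_mul_card_stabilizer_eq_card_addGroup T x
  have h1 : Fintype.card T = p ^ finrank (ZMod p) T := by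
    rw [Module.card_eq_pow_finrank (K := ZMod p), ZMod.card]
  have h2 : Fintype.card (stab p T x) = p ^ finrank (ZMod p) (stab p T x) := by
    rw [Module.card_eq_pow_finrank (K := ZMod p), ZMod.card]
  have h3 : Fintype.card (AddAction.stabilizer T x) = Fintype.card (stab p T x) :=
    Fintype.card_congr (Equiv.refl _)
  have h4 : Fintype.card (AddAction.orbit T x) =
      (univ.filter (fun x' : X => bar T x' = bar T x)).card := by
    rw [Fintype.card_subtype]
    congr 1
    ext x'
    rw [mem_filter, mem_filter, mem_orbit_iff]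
  rw [← h4, ← h2, ← h3, h, h1]

end stab

section cls
variable {T C I : Type*} [Fintype I]

/-- the functions on `I` that are given on every class by a function from `P` -/
def cls (cl : I → C) (u : I → T) (P : C → Submodule (ZMod p) (T → ZMod p)) :
    Submodule (ZMod p) (I → ZMod p) where
  carrier := {g | ∀ c, ∃ α ∈ P c, ∀ i, cl i = c → g i = α (u i)}
  add_mem' {f g} hf hg c := by
    obtain ⟨α, ha, h1⟩ := hf c
    obtain ⟨β, hb, h2⟩ := hg c
    exact ⟨α + β, (P c).add_mem ha hb, fun i hi => by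
      rw [Pi.add_apply, Pi.add_apply, h1 i hi, h2 i hi]⟩
  zero_mem' c := ⟨0, (P c).zero_mem, fun _ _ => rfl⟩
  smul_mem' r f hf c := by
    obtain ⟨α, ha, h1⟩ := hf c
    exact ⟨r • α, (P c).smul_mem r ha, fun i hi => by
      rw [Pi.smul_apply, Pi.smul_apply, h1 i hi]⟩

theorem finrank_cls_le [Finite T] [DecidableEq C] (cl : I → C) (u : I → T)
    (P : C → Submodule (ZMod p) (T → ZMod p)) :
    finrank (ZMod p) (cls cl u P) ≤ ∑ c ∈ univ.image cl, finrank (ZMod p) (P c) := by
  classical
  have : Fintype T := Fintype.ofFinite T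
  let Θ : (∀ c : (univ.image cl : Finset C), P c) →ₗ[ZMod p] (I → ZMod p) :=
    { toFun := fun α i => (α ⟨cl i, mem_image_of_mem cl (mem_univ i)⟩ : T → ZMod p) (u i)
      map_add' := fun _ _ => rfl
      map_smul' := fun _ _ => rfl }
  have h1 : cls cl u P ≤ LinearMap.range Θ := by
    intro g hg
    choose α hα hg using hg
    exact ⟨fun c => ⟨α c, hα c⟩, funext fun i => (hg (cl i) i rfl).symm⟩
  refine (Submodule.finrank_mono h1).trans ((LinearMap.finrank_range_le Θ).trans ?_)
  rw [Module.finrank_pi_fintype]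
  exact (Finset.sum_coe_sort (univ.image cl) (fun c => finrank (ZMod p) (P c))).le

end cls

section dims
variable {T X Y Z I : Type*} [AddCommGroup T] [Module (ZMod p) T] [Fintype T] [AddAction T X]
  [AddAction T Y] [AddAction T Z] [Fintype X] [Fintype Y] [Fintype Z] [Fintype I]

theorem cls_bound [DecidableEq X] [DecidableEq Y] (x : I → X) (y : I → Y) (u : I → T)
    (P : Finset (X × Y)) (hP : ∀ i, ∀ a b : T, (a +ᵥ x i, b +ᵥ y i) ∈ P)
    (hdis : ∀ i, stab p T (x i) ⊓ stab p T (y i) = ⊥) :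
    (finrank (ZMod p) (cls (p := p) (fun i => (bar T (x i), bar T (y i))) u
      (fun c => LowT (stab p T c.1 ⊔ stab p T c.2))) : ℝ) * (p : ℝ) ^ finrank (ZMod p) T ≤
      Real.exp (-(finrank (ZMod p) T : ℝ) / 18) * P.card := by
  classical
  set cl : I → X × Y := fun i => (bar T (x i), bar T (y i)) with hcl
  set t := finrank (ZMod p) T with ht
  have hp0 : (0 : ℝ) < p := by exact_mod_cast (Fact.out : p.Prime).pos
  have h1 : (finrank (ZMod p) (cls (p := p) cl u
      (fun c => LowT (stab p T c.1 ⊔ stab p T c.2))) : ℝ) ≤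
      ∑ c ∈ univ.image cl, (finrank (ZMod p) (LowT (stab p T c.1 ⊔ stab p T c.2)) : ℝ) := by
    exact_mod_cast finrank_cls_le cl u (fun c => LowT (stab p T c.1 ⊔ stab p T c.2))
  have h2 : ∀ c ∈ univ.image cl,
      (finrank (ZMod p) (LowT (stab p T c.1 ⊔ stab p T c.2)) : ℝ) * (p : ℝ) ^ t ≤
        Real.exp (-(t : ℝ) / 18) * (P.filter (fun q => (bar T q.1, bar T q.2) = c)).card := by
    intro c hc
    obtain ⟨i, -, rfl⟩ := mem_image.1 hc
    have hs1 : stab p T (cl i).1 = stab p T (x i) := stab_bar (x i)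
    have hs2 : stab p T (cl i).2 = stab p T (y i) := stab_bar (y i)
    rw [hs1, hs2]
    have hd := Submodule.finrank_sup_add_finrank_inf_eq (stab p T (x i)) (stab p T (y i))
    rw [hdis i, finrank_bot, add_zero] at hd
    have hlow := finrank_LowT_le (stab p T (x i) ⊔ stab p T (y i))
    have hle : finrank (ZMod p) ↥(stab p T (x i) ⊔ stab p T (y i)) ≤ t := Submodule.finrank_le _
    have hO1 := card_orbit (p := p) (T := T) (x i)
    have hO2 := card_orbit (p := p) (T := T) (y i)
    set O1 := univ.filter (fun x' : X => bar T x' = bar T (x i)) with hO1d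
    set O2 := univ.filter (fun y' : Y => bar T y' = bar T (y i)) with hO2d
    have hsub : O1 ×ˢ O2 ⊆ P.filter (fun q => (bar T q.1, bar T q.2) = cl i) := by
      rintro ⟨x', y'⟩ hq
      rw [mem_product] at hq
      have hx' : bar T x' = bar T (x i) := (mem_filter.1 hq.1).2
      have hy' : bar T y' = bar T (y i) := (mem_filter.1 hq.2).2
      obtain ⟨a, ha⟩ : ∃ a : T, a +ᵥ x i = x' := (mem_orbit_iff (T := T) (x i) x').2 hx'
      obtain ⟨b, hb⟩ : ∃ b : T, b +ᵥ y i = y' := (mem_orbit_iff (T := T) (y i) y').2 hy'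
      refine mem_filter.2 ⟨?_, ?_⟩
      · rw [← ha, ← hb]; exact hP i a b
      · rw [hcl]; simp only [hx', hy']
    have hcard : (O1.card : ℝ) * O2.card ≤
        ((P.filter (fun q => (bar T q.1, bar T q.2) = cl i)).card : ℝ) := by
      have := card_le_card hsub
      rw [card_product] at this
      exact_mod_cast this
    have hprod : (p : ℝ) ^ (t - finrank (ZMod p) ↥(stab p T (x i) ⊔ stab p T (y i))) *
        (p : ℝ) ^ t = (O1.card : ℝ) * O2.card := by
      have hO1' : (O1.card : ℝ) * (p : ℝ) ^ finrank (ZMod p) (stab p T (x i)) = (p : ℝ) ^ t := by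
        exact_mod_cast hO1
      have hO2' : (O2.card : ℝ) * (p : ℝ) ^ finrank (ZMod p) (stab p T (y i)) = (p : ℝ) ^ t := by
        exact_mod_cast hO2
      have e1 : (p : ℝ) ^ (t - finrank (ZMod p) ↥(stab p T (x i) ⊔ stab p T (y i))) *
          (p : ℝ) ^ (finrank (ZMod p) (stab p T (x i)) + finrank (ZMod p) (stab p T (y i))) =
            (p : ℝ) ^ t := by
        rw [← hd, ← pow_add, Nat.sub_add_cancel hle]
      have hne : (p : ℝ) ^ (finrank (ZMod p) (stab p T (x i)) +
          finrank (ZMod p) (stab p T (y i))) ≠ 0 := by positivity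
      apply mul_right_cancel₀ hne
      calc _ = ((p : ℝ) ^ (t - finrank (ZMod p) ↥(stab p T (x i) ⊔ stab p T (y i))) *
          (p : ℝ) ^ (finrank (ZMod p) (stab p T (x i)) + finrank (ZMod p) (stab p T (y i)))) *
            (p : ℝ) ^ t := by ring
        _ = (p : ℝ) ^ t * (p : ℝ) ^ t := by rw [e1]
        _ = ((O1.card : ℝ) * (p : ℝ) ^ finrank (ZMod p) (stab p T (x i))) *
            ((O2.card : ℝ) * (p : ℝ) ^ finrank (ZMod p) (stab p T (y i))) := by rw [hO1', hO2']
        _ = _ := by rw [pow_add]; ring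
    calc _ ≤ ((p : ℝ) ^ (t - finrank (ZMod p) ↥(stab p T (x i) ⊔ stab p T (y i))) *
          Real.exp (-(t : ℝ) / 18)) * (p : ℝ) ^ t := by gcongr
      _ = Real.exp (-(t : ℝ) / 18) * ((p : ℝ) ^
          (t - finrank (ZMod p) ↥(stab p T (x i) ⊔ stab p T (y i))) * (p : ℝ) ^ t) := by ring
      _ = Real.exp (-(t : ℝ) / 18) * ((O1.card : ℝ) * O2.card) := by rw [hprod]
      _ ≤ _ := by gcongr
  calc _ ≤ (∑ c ∈ univ.image cl, (finrank (ZMod p) (LowT (stab p T c.1 ⊔ stab p T c.2)) : ℝ)) *
        (p : ℝ) ^ t := by gcongr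
    _ = ∑ c ∈ univ.image cl, (finrank (ZMod p) (LowT (stab p T c.1 ⊔ stab p T c.2)) : ℝ) *
        (p : ℝ) ^ t := by rw [sum_mul]
    _ ≤ ∑ c ∈ univ.image cl, Real.exp (-(t : ℝ) / 18) *
        ((P.filter (fun q => (bar T q.1, bar T q.2) = c)).card : ℝ) := sum_le_sum h2
    _ = Real.exp (-(t : ℝ) / 18) * ((∑ c ∈ univ.image cl,
        (P.filter (fun q => (bar T q.1, bar T q.2) = c)).card : ℕ) : ℝ) := by
        rw [← mul_sum]; push_cast; rfl
    _ ≤ _ := by
        have : ∑ c ∈ univ.image cl, (P.filter (fun q => (bar T q.1, bar T q.2) = c)).card ≤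
            P.card := by
          rw [Finset.sum_card_fiberwise_eq_card_filter]
          exact card_filter_le _ _
        gcongr

theorem finrank_triple {A B C : Submodule (ZMod p) T}
    (h : ∀ a ∈ A, ∀ b ∈ B, ∀ c ∈ C, a + b + c = 0 → a = 0 ∧ b = 0 ∧ c = 0) :
    finrank (ZMod p) ↥(A ⊔ B) = finrank (ZMod p) A + finrank (ZMod p) B ∧
    finrank (ZMod p) ↥(B ⊔ C) = finrank (ZMod p) B + finrank (ZMod p) C ∧
    finrank (ZMod p) ↥(C ⊔ A) = finrank (ZMod p) C + finrank (ZMod p) A ∧
    finrank (ZMod p) ↥(A ⊔ B ⊔ C) =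
      finrank (ZMod p) A + finrank (ZMod p) B + finrank (ZMod p) C := by
  have hAB : A ⊓ B = ⊥ := by
    rw [eq_bot_iff]
    intro a ha
    exact (h a ha.1 (-a) (B.neg_mem ha.2) 0 C.zero_mem (by simp)).1
  have hBC : B ⊓ C = ⊥ := by
    rw [eq_bot_iff]
    intro a ha
    exact (h 0 A.zero_mem a ha.1 (-a) (C.neg_mem ha.2) (by simp)).2.1
  have hCA : C ⊓ A = ⊥ := by
    rw [eq_bot_iff]
    intro a ha
    exact (h (-a) (A.neg_mem ha.2) 0 B.zero_mem a ha.1 (by simp)).2.2
  have hABC : (A ⊔ B) ⊓ C = ⊥ := by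
    rw [eq_bot_iff]
    intro c hc
    obtain ⟨a, ha, b, hb, hab⟩ := Submodule.mem_sup.1 hc.1
    exact neg_eq_zero.1 (h a ha b hb (-c) (C.neg_mem hc.2) (by rw [hab]; simp)).2.2
  have e1 := Submodule.finrank_sup_add_finrank_inf_eq A B
  have e2 := Submodule.finrank_sup_add_finrank_inf_eq B C
  have e3 := Submodule.finrank_sup_add_finrank_inf_eq C A
  have e4 := Submodule.finrank_sup_add_finrank_inf_eq (A ⊔ B) C
  rw [hAB, finrank_bot] at e1
  rw [hBC, finrank_bot] at e2
  rw [hCA, finrank_bot] at e3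
  rw [hABC, finrank_bot] at e4
  omega

open Classical in
/-- The bound for a system of representatives. -/
theorem reps_bound (x : I → X) (y : I → Y) (z : I → Z)
    (hkey : ∀ i j l (a b c : T), a + b + c = 0 → a +ᵥ y j = y i → b +ᵥ z l = z j →
      c +ᵥ x i = x l → i = j ∧ j = l ∧ a = 0 ∧ b = 0)
    (Pxy : Finset (X × Y)) (Pyz : Finset (Y × Z)) (Pzx : Finset (Z × X))
    (hxy : ∀ i, ∀ a b : T, (a +ᵥ x i, b +ᵥ y i) ∈ Pxy)
    (hyz : ∀ i, ∀ a b : T, (a +ᵥ y i, b +ᵥ z i) ∈ Pyz)
    (hzx : ∀ i, ∀ a b : T, (a +ᵥ z i, b +ᵥ x i) ∈ Pzx) :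
    (Fintype.card I : ℝ) * (p : ℝ) ^ finrank (ZMod p) T ≤
      Real.exp (-(finrank (ZMod p) T : ℝ) / 18) * (Pxy.card + Pyz.card + Pzx.card) := by
  set J : X → Y → Z → Prop := fun x y z => ∀ a ∈ stab p T x, ∀ b ∈ stab p T y, ∀ c ∈ stab p T z,
    a + b + c = 0 → a = 0 ∧ b = 0 ∧ c = 0 with hJ
  have hJi : ∀ i, J (x i) (y i) (z i) := by
    intro i c hc a ha b hb habc
    have h := hkey i i i a b c (by rw [← habc]; abel) (mem_stab.1 ha) (mem_stab.1 hb)
      (mem_stab.1 hc)
    refine ⟨?_, h.2.2.1, h.2.2.2⟩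
    rw [h.2.2.1, h.2.2.2, add_zero, add_zero] at habc
    exact habc
  -- the decomposition at every triple of base points
  have hdec : ∀ (x : X) (y : Y) (z : Z), ∃ Φ₁ Φ₂ Φ₃ : T → T → T → ZMod p,
      (∀ u v w, Φ₁ u v w + Φ₂ u v w + Φ₃ u v w =
        if J x y z ∧ u + v + w ∈ stab p T x ⊔ stab p T y ⊔ stab p T z then 1 else 0) ∧
      (∀ v w, (fun u => Φ₁ u v w) ∈ LowT (stab p T x ⊔ stab p T y)) ∧
      (∀ u w, (fun v => Φ₂ u v w) ∈ LowT (stab p T y ⊔ stab p T z)) ∧
      (∀ u v, (fun w => Φ₃ u v w) ∈ LowT (stab p T z ⊔ stab p T x)) := by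
    intro x y z
    by_cases hj : J x y z
    · obtain ⟨d1, d2, d3, d4⟩ := finrank_triple hj
      have hQ : finrank (ZMod p) ↥(stab p T x ⊔ stab p T y ⊔ stab p T z) ≤ finrank (ZMod p) T :=
        Submodule.finrank_le _
      obtain ⟨Φ₁, Φ₂, Φ₃, h0, h1, h2, h3⟩ := decomp (stab p T x ⊔ stab p T y)
        (stab p T y ⊔ stab p T z) (stab p T z ⊔ stab p T x)
        (stab p T x ⊔ stab p T y ⊔ stab p T z) le_sup_left
        (sup_le (le_sup_right.trans le_sup_left) le_sup_right)
        (sup_le le_sup_right (le_sup_left.trans le_sup_left)) (by omega)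
      refine ⟨Φ₁, Φ₂, Φ₃, fun u v w => ?_, h1, h2, h3⟩
      rw [h0]
      simp only [hj, true_and]
    · exact ⟨fun _ _ _ => 0, fun _ _ _ => 0, fun _ _ _ => 0, fun _ _ _ => by simp [hj],
        fun _ _ => Submodule.zero_mem _, fun _ _ => Submodule.zero_mem _,
        fun _ _ => Submodule.zero_mem _⟩
  choose Φ₁ Φ₂ Φ₃ h0 h1 h2 h3 using hdec
  set u : I → T := fun i => co T (y i) - co T (x i) with hu
  set v : I → T := fun j => co T (z j) - co T (y j) with hv
  set w : I → T := fun l => co T (x l) - co T (z l) with hw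
  set L₁ := cls (p := p) (fun i => (bar T (x i), bar T (y i))) u
      (fun c => LowT (stab p T c.1 ⊔ stab p T c.2)) with hL₁
  set L₂ := cls (p := p) (fun i => (bar T (y i), bar T (z i))) v
      (fun c => LowT (stab p T c.1 ⊔ stab p T c.2)) with hL₂
  set L₃ := cls (p := p) (fun i => (bar T (z i), bar T (x i))) w
      (fun c => LowT (stab p T c.1 ⊔ stab p T c.2)) with hL₃
  set E : I → I → I → Prop := fun i j l =>
    bar T (x i) = bar T (x l) ∧ bar T (y i) = bar T (y j) ∧ bar T (z j) = bar T (z l) with hE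
  have hmain : Fintype.card I ≤ finrank (ZMod p) L₁ + finrank (ZMod p) L₂ +
      finrank (ZMod p) L₃ := by
    refine diag_bound
      (fun i j l => if E i j l then Φ₁ (bar T (x i)) (bar T (y i)) (bar T (z j)) (u i) (v j) (w l)
        else 0)
      (fun i j l => if E i j l then Φ₂ (bar T (x i)) (bar T (y i)) (bar T (z j)) (u i) (v j) (w l)
        else 0)
      (fun i j l => if E i j l then Φ₃ (bar T (x i)) (bar T (y i)) (bar T (z j)) (u i) (v j) (w l)
        else 0) L₁ L₂ L₃ ?_ ?_ ?_ ?_
    · intro j l c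
      by_cases hc : c = (bar T (x l), bar T (y j)) ∧ bar T (z j) = bar T (z l)
      · refine ⟨fun s => Φ₁ c.1 c.2 (bar T (z j)) s (v j) (w l), h1 _ _ _ _ _, ?_⟩
        rintro i rfl
        obtain ⟨hc1, hc2⟩ := hc
        rw [Prod.mk.injEq] at hc1
        dsimp only
        rw [if_pos ⟨hc1.1, hc1.2, hc2⟩]
      · refine ⟨0, Submodule.zero_mem _, ?_⟩
        rintro i rfl
        dsimp only
        rw [if_neg]
        · rfl
        · rintro ⟨e1, e2, e3⟩
          exact hc ⟨Prod.ext e1 e2.symm.symm, e3⟩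
    · intro i l c
      by_cases hc : c = (bar T (y i), bar T (z l)) ∧ bar T (x i) = bar T (x l)
      · refine ⟨fun s => Φ₂ (bar T (x i)) c.1 c.2 (u i) s (w l), h2 _ _ _ _ _, ?_⟩
        rintro j rfl
        obtain ⟨hc1, hc2⟩ := hc
        rw [Prod.mk.injEq] at hc1
        dsimp only
        rw [if_pos ⟨hc2, hc1.1.symm, hc1.2⟩, ← hc1.1]
      · refine ⟨0, Submodule.zero_mem _, ?_⟩
        rintro j rfl
        dsimp only
        rw [if_neg]
        · rfl
        · rintro ⟨e1, e2, e3⟩
          exact hc ⟨Prod.ext e2.symm e3, e1⟩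
    · intro i j c
      by_cases hc : c = (bar T (z j), bar T (x i)) ∧ bar T (y i) = bar T (y j)
      · refine ⟨fun s => Φ₃ c.2 (bar T (y i)) c.1 (u i) (v j) s, h3 _ _ _ _ _, ?_⟩
        rintro l rfl
        obtain ⟨hc1, hc2⟩ := hc
        rw [Prod.mk.injEq] at hc1
        dsimp only
        rw [if_pos ⟨hc1.2.symm, hc2, hc1.1.symm⟩, ← hc1.1, ← hc1.2]
      · refine ⟨0, Submodule.zero_mem _, ?_⟩
        rintro l rfl
        dsimp only
        rw [if_neg]
        · rfl
        · rintro ⟨e1, e2, e3⟩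
          exact hc ⟨Prod.ext e3.symm e1.symm, e2⟩
    · intro i j l
      by_cases hij : i = j ∧ j = l
      · obtain ⟨rfl, rfl⟩ := hij
        have hEi : E i i i := ⟨rfl, rfl, rfl⟩
        have hcond : J (bar T (x i)) (bar T (y i)) (bar T (z i)) ∧ u i + v i + w i ∈
            stab p T (bar T (x i)) ⊔ stab p T (bar T (y i)) ⊔ stab p T (bar T (z i)) := by
          refine ⟨?_, ?_⟩
          · have := hJi i
            rw [hJ] at this ⊢
            simpa only [stab_bar] using this
          · have : u i + v i + w i = 0 := by simp only [hu, hv, hw]; abel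
            rw [this]
            exact Submodule.zero_mem _
        rw [if_pos hEi, if_pos hEi, if_pos hEi, h0, if_pos hcond, if_pos ⟨rfl, rfl⟩]
      · rw [if_neg hij]
        by_cases hEi : E i j l
        · rw [if_pos hEi, if_pos hEi, if_pos hEi, h0, if_neg]
          rintro ⟨-, hmem⟩
          obtain ⟨e1, e2, e3⟩ := hEi
          obtain ⟨s, hs, n3, hn3, hsum⟩ := Submodule.mem_sup.1 hmem
          obtain ⟨n1, hn1, n2, hn2, hs'⟩ := Submodule.mem_sup.1 hs
          rw [stab_bar] at hn3
          rw [mem_stab] at hn1 hn2 hn3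
          apply hij
          have hx : ∀ i, co T (x i) +ᵥ bar T (x i) = x i := fun i => co_vadd _
          have hy : ∀ i, co T (y i) +ᵥ bar T (y i) = y i := fun i => co_vadd _
          have hz : ∀ i, co T (z i) +ᵥ bar T (z i) = z i := fun i => co_vadd _
          -- a = q_i - q_j - n2
          have hn1' : -n1 +ᵥ bar T (x i) = bar T (x i) := by
            conv_lhs => rw [← hn1]
            simp
          have hn2' : -n2 +ᵥ bar T (y i) = bar T (y i) := by
            conv_lhs => rw [← hn2]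
            simp
          have hn3' : -n3 +ᵥ bar T (z j) = bar T (z j) := by
            have h5 : n3 +ᵥ bar T (z j) = bar T (z j) := by
              have : n3 ∈ stab p T (bar T (z j)) := by rw [stab_bar]; exact mem_stab.2 hn3
              exact mem_stab.1 this
            conv_lhs => rw [← h5]
            simp
          have ha : (co T (y i) - co T (y j) - n2) +ᵥ y j = y i := by
            calc (co T (y i) - co T (y j) - n2) +ᵥ y j
                = (co T (y i) - co T (y j) - n2) +ᵥ (co T (y j) +ᵥ bar T (y j)) := by rw [hy j]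
              _ = (co T (y i)) +ᵥ (-n2 +ᵥ bar T (y i)) := by
                  rw [← e2, ← add_vadd, ← add_vadd]; congr 1; abel
              _ = y i := by rw [hn2', hy i]
          have hb : (co T (z j) - co T (z l) - n3) +ᵥ z l = z j := by
            calc (co T (z j) - co T (z l) - n3) +ᵥ z l
                = (co T (z j) - co T (z l) - n3) +ᵥ (co T (z l) +ᵥ bar T (z l)) := by rw [hz l]
              _ = (co T (z j)) +ᵥ (-n3 +ᵥ bar T (z j)) := by
                  rw [← e3, ← add_vadd, ← add_vadd]; congr 1; abel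
              _ = z j := by rw [hn3', hz j]
          have hc : (co T (x l) - co T (x i) - n1) +ᵥ x i = x l := by
            calc (co T (x l) - co T (x i) - n1) +ᵥ x i
                = (co T (x l) - co T (x i) - n1) +ᵥ (co T (x i) +ᵥ bar T (x i)) := by rw [hx i]
              _ = (co T (x l)) +ᵥ (-n1 +ᵥ bar T (x i)) := by
                  rw [← add_vadd, ← add_vadd]; congr 1; abel
              _ = x l := by rw [hn1', e1, hx l]
          have hsum0 : (co T (y i) - co T (y j) - n2) + (co T (z j) - co T (z l) - n3) +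
              (co T (x l) - co T (x i) - n1) = 0 := by
            have h6 : n1 + n2 + n3 = u i + v j + w l := by rw [hs', hsum]
            have h7 : (co T (y i) - co T (y j) - n2) + (co T (z j) - co T (z l) - n3) +
              (co T (x l) - co T (x i) - n1) = (u i + v j + w l) - (n1 + n2 + n3) := by
              simp only [hu, hv, hw]; abel
            rw [h7, h6, sub_self]
          have := hkey i j l _ _ _ hsum0 ha hb hc
          exact ⟨this.1, this.2.1⟩
        · rw [if_neg hEi, if_neg hEi, if_neg hEi, add_zero, add_zero]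
  have hdxy : ∀ i, stab p T (x i) ⊓ stab p T (y i) = ⊥ := by
    intro i
    rw [eq_bot_iff]
    intro a ha
    exact (hJi i a ha.1 (-a) (Submodule.neg_mem _ ha.2) 0 (Submodule.zero_mem _) (by simp)).1
  have hdyz : ∀ i, stab p T (y i) ⊓ stab p T (z i) = ⊥ := by
    intro i
    rw [eq_bot_iff]
    intro a ha
    exact (hJi i 0 (Submodule.zero_mem _) a ha.1 (-a) (Submodule.neg_mem _ ha.2) (by simp)).2.1
  have hdzx : ∀ i, stab p T (z i) ⊓ stab p T (x i) = ⊥ := by
    intro i
    rw [eq_bot_iff]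
    intro a ha
    exact (hJi i (-a) (Submodule.neg_mem _ ha.2) 0 (Submodule.zero_mem _) a ha.1 (by simp)).2.2
  have b1 := cls_bound x y u Pxy hxy hdxy
  have b2 := cls_bound y z v Pyz hyz hdyz
  have b3 := cls_bound z x w Pzx hzx hdzx
  have hmain' : (Fintype.card I : ℝ) ≤ finrank (ZMod p) L₁ + finrank (ZMod p) L₂ +
      finrank (ZMod p) L₃ := by exact_mod_cast hmain
  calc (Fintype.card I : ℝ) * (p : ℝ) ^ finrank (ZMod p) T
      ≤ (finrank (ZMod p) L₁ + finrank (ZMod p) L₂ + finrank (ZMod p) L₃) *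
        (p : ℝ) ^ finrank (ZMod p) T := by gcongr
    _ = finrank (ZMod p) L₁ * (p : ℝ) ^ finrank (ZMod p) T +
        finrank (ZMod p) L₂ * (p : ℝ) ^ finrank (ZMod p) T +
        finrank (ZMod p) L₃ * (p : ℝ) ^ finrank (ZMod p) T := by ring
    _ ≤ Real.exp (-(finrank (ZMod p) T : ℝ) / 18) * Pxy.card +
        Real.exp (-(finrank (ZMod p) T : ℝ) / 18) * Pyz.card +
        Real.exp (-(finrank (ZMod p) T : ℝ) / 18) * Pzx.card := by gcongr
    _ = _ := by ring

end dims

end Pool.Agent.TH360.RS
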