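import Pool.Agent.TH360.RS.Corner

/-!
# Corner-free sets invariant under automorphisms of independent blocks
-/

set_option autoImplicit false

namespace Pool.Agent.TH360.RS

open Finset Module

variable {p : ℕ} [Fact p.Prime]

theorem exp_numeric : Real.exp (-1 / 18) ≤ 648 / 685 := by
  have h1 : (1 : ℝ) + 1 / 18 + (1 / 18) ^ 2 / 2 ≤ Real.exp (1 / 18) :=
    Real.quadratic_le_exp_of_nonneg (by norm_num)
  have h2 : Real.exp (-1 / 18) = (Real.exp (1 / 18))⁻¹ := by
    rw [← Real.exp_neg]; congr 1; ring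
  rw [h2, inv_le_comm₀ (Real.exp_pos _) (by norm_num)]
  refine le_trans ?_ h1
  norm_num

open Classical in
theorem two_fix_le {V : Type*} [AddCommGroup V] [Fintype V] (σ : V ≃+ V)
    (hσ : ∃ w, σ w ≠ w) :
    2 * (univ.filter (fun v : V => σ v = v)).card ≤ Fintype.card V := by
  obtain ⟨w, hw⟩ := hσ
  set F := univ.filter (fun v : V => σ v = v) with hF
  have hdis : Disjoint F (F.image (fun v => v + w)) := by
    rw [disjoint_left]
    intro v hv hv'
    obtain ⟨u, hu, rfl⟩ := mem_image.1 hv'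
    have h1 : σ u = u := (mem_filter.1 hu).2
    have h2 : σ (u + w) = u + w := (mem_filter.1 hv).2
    rw [map_add, h1] at h2
    exact hw (add_left_cancel h2)
  have hcard : (F.image (fun v => v + w)).card = F.card :=
    card_image_of_injective _ fun a b h => add_right_cancel h
  have := card_le_univ (F ∪ F.image (fun v => v + w))
  rw [card_union_of_disjoint hdis, hcard] at this
  omega

open Classical in
/-- the weight of a pair in a block -/
noncomputable def wt {V : Type*} [AddCommGroup V] (σ : V ≃+ V) (x y : V) : ℝ :=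
  if σ x = x ∧ σ y = y then 1 else Real.exp (-1 / 18)

open Classical in
theorem sum_wt_le {V : Type*} [AddCommGroup V] [Fintype V] (σ : V ≃+ V) (hσ : ∃ w, σ w ≠ w) :
    ∑ x : V, ∑ y : V, wt σ x y ≤ 24 / 25 * (Fintype.card V : ℝ) ^ 2 := by
  set F := univ.filter (fun v : V => σ v = v) with hF
  set e := Real.exp (-1 / 18) with he
  have he1 : e ≤ 648 / 685 := exp_numeric
  have h1 : ∀ x y : V, wt σ x y = e + (1 - e) * ((if σ x = x then 1 else 0) *
      (if σ y = y then 1 else 0)) := by
    intro x y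
    unfold wt
    by_cases hx : σ x = x <;> by_cases hy : σ y = y <;> simp [hx, hy, he]
  have h2 : ∑ x : V, ∑ y : V, wt σ x y =
      e * (Fintype.card V : ℝ) ^ 2 + (1 - e) * (F.card : ℝ) ^ 2 := by
    simp_rw [h1, sum_add_distrib, ← mul_sum, ← sum_mul]
    have h3 : ∑ x : V, (if σ x = x then (1 : ℝ) else 0) = F.card := by
      rw [hF, sum_boole]
    rw [h3]
    simp only [sum_const, card_univ, nsmul_eq_mul]
    ring
  rw [h2]
  have h4 : 2 * (F.card : ℝ) ≤ Fintype.card V := by exact_mod_cast two_fix_le σ hσ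
  have h5 : (F.card : ℝ) ^ 2 ≤ (Fintype.card V : ℝ) ^ 2 / 4 := by
    have h0 : (0 : ℝ) ≤ F.card := by positivity
    nlinarith
  have h6 : 0 ≤ 1 - e := by linarith
  nlinarith [mul_le_mul_of_nonneg_left h5 h6, sq_nonneg (Fintype.card V : ℝ)]

open Classical in
theorem card_fix {V : Type*} [AddCommGroup V] (σ : V ≃+ V) (hσ : ∀ v, σ^[p] v = v) (x y : V) :
    ((p : ℝ) / (univ.filter (fun a : ZMod p => σ^[a.val] x = x ∧ σ^[a.val] y = y)).card) ^
      (-(1 / (18 * Real.log p)) : ℝ) = wt σ x y := by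
  have hp2 : (2 : ℝ) ≤ p := by exact_mod_cast (Fact.out : p.Prime).two_le
  have hp0 : (0 : ℝ) < p := by linarith
  have hlog : Real.log p ≠ 0 := (Real.log_pos (by linarith)).ne'
  by_cases h : σ x = x ∧ σ y = y
  · have hu : (univ.filter (fun a : ZMod p => σ^[a.val] x = x ∧ σ^[a.val] y = y)) = univ := by
      rw [filter_eq_self]
      intro a _
      exact ⟨Function.iterate_fixed h.1 _, Function.iterate_fixed h.2 _⟩
    rw [hu, card_univ, ZMod.card, div_self hp0.ne', Real.one_rpow, wt, if_pos h]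
  · have hu : (univ.filter (fun a : ZMod p => σ^[a.val] x = x ∧ σ^[a.val] y = y)) = {0} := by
      ext a
      rw [mem_filter, mem_singleton]
      constructor
      · rintro ⟨_, h1, h2⟩
        by_contra ha
        apply h
        have hinv : a * a⁻¹ = 1 := mul_inv_cancel₀ ha
        have hmod : (a.val * (a⁻¹).val) % p = 1 := by
          have h3 : ((a.val * (a⁻¹).val : ℕ) : ZMod p) = 1 := by
            push_cast
            rw [ZMod.natCast_zmod_val, ZMod.natCast_zmod_val, hinv]
          have h4 : ((a.val * (a⁻¹).val : ℕ) : ZMod p) = ((1 : ℕ) : ZMod p) := by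
            rw [h3]; simp
          rw [ZMod.natCast_eq_natCast_iff'] at h4
          rw [h4]
          exact Nat.mod_eq_of_lt (Fact.out : p.Prime).one_lt
        have hit : ∀ z : V, σ^[a.val] z = z → σ z = z := by
          intro z hz
          have e1 : (σ^[a.val])^[(a⁻¹).val] z = z := Function.iterate_fixed hz _
          rw [← Function.iterate_mul, ← Nat.div_add_mod (a.val * (a⁻¹).val) p, hmod,
            Function.iterate_add_apply, Function.iterate_mul, Function.iterate_one] at e1
          rwa [Function.iterate_fixed (hσ (σ z))] at e1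
        exact ⟨hit x h1, hit y h2⟩
      · rintro rfl
        rw [ZMod.val_zero]
        exact ⟨mem_univ _, rfl, rfl⟩
    rw [hu, card_singleton, Nat.cast_one, div_one, wt, if_neg h,
      Real.rpow_def_of_pos hp0]
    congr 1
    field_simp

open Classical in
include p in
/-- **Blocks.** -/
theorem blocks_bound {t : ℕ} {V : Fin t → Type*} [∀ i, AddCommGroup (V i)] [∀ i, Fintype (V i)]
    {W : Type*} [AddCommGroup W] [Fintype W] (σ : ∀ i, V i ≃+ V i) (hσ1 : ∀ i, ∃ v, σ i v ≠ v)
    (hσp : ∀ i v, (σ i)^[p] v = v) (A : Finset (((∀ i, V i) × W) × ((∀ i, V i) × W)))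
    (hA : ∀ x y z : (∀ i, V i) × W, (x, y) ∈ A → (x, y + z) ∈ A → (x + z, y) ∈ A → z = 0)
    (hinv : ∀ i, ∀ P ∈ A, ((Function.update P.1.1 i (σ i (P.1.1 i)), P.1.2),
      (Function.update P.2.1 i (σ i (P.2.1 i)), P.2.2)) ∈ A) :
    (A.card : ℝ) ≤ 3 * (24 / 25) ^ t * (Fintype.card ((∀ i, V i) × W) : ℝ) ^ 2 := by
  have hp := (Fact.out : p.Prime)
  set f : (Fin t → ZMod p) → ((∀ i, V i) × W) → ((∀ i, V i) × W) :=
    fun a x => (fun i => (σ i)^[(a i).val] (x.1 i), x.2) with hf
  have hadd : ∀ i (a b : ZMod p) (v : V i), (σ i)^[(a + b).val] v =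
      (σ i)^[a.val] ((σ i)^[b.val] v) := by
    intro i a b v
    rw [← Function.iterate_add_apply, ZMod.val_add]
    conv_rhs => rw [← Nat.div_add_mod (a.val + b.val) p, Function.iterate_add_apply,
      Function.iterate_mul]
    rw [Function.iterate_fixed (hσp i _)]
  have f0 : ∀ x, f 0 x = x := by
    intro x
    refine Prod.ext (funext fun i => ?_) rfl
    change (σ i)^[(0 : ZMod p).val] (x.1 i) = x.1 i
    rw [ZMod.val_zero]
    rfl
  have fa : ∀ a b x, f (a + b) x = f a (f b x) := by
    intro a b x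
    refine Prod.ext (funext fun i => ?_) rfl
    change (σ i)^[(a i + b i).val] (x.1 i) = (σ i)^[(a i).val] ((σ i)^[(b i).val] (x.1 i))
    rw [hadd]
  have hsum : ∀ a x y, f a x + f a y = f a (x + y) := by
    intro a x y
    refine Prod.ext (funext fun i => ?_) rfl
    exact (iterate_map_add (σ i) (a i).val (x.1 i) (y.1 i)).symm
  have hinvf : ∀ a, ∀ P ∈ A, (f a P.1, f a P.2) ∈ A := by
    let M : AddSubmonoid (Fin t → ZMod p) :=
      { carrier := {a | ∀ P ∈ A, (f a P.1, f a P.2) ∈ A}
        add_mem' := fun {a b} ha hb P hP => by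
          rw [fa, fa]
          exact ha _ (hb P hP)
        zero_mem' := fun P hP => by
          rw [f0, f0]
          exact hP }
    have hgen : ∀ i, (Pi.single i 1 : Fin t → ZMod p) ∈ M := by
      intro i P hP
      have key : ∀ x : (∀ i, V i) × W, f (Pi.single i 1) x =
          (Function.update x.1 i (σ i (x.1 i)), x.2) := by
        intro x
        refine Prod.ext (funext fun j => ?_) rfl
        change (σ j)^[((Pi.single i 1 : Fin t → ZMod p) j).val] (x.1 j) = _
        have : Fact (1 < p) := ⟨hp.one_lt⟩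
        by_cases hj : j = i
        · subst hj
          rw [Pi.single_eq_same, ZMod.val_one, Function.iterate_one]
          dsimp only
          rw [Function.update_self]
        · rw [Pi.single_eq_of_ne hj, ZMod.val_zero]
          dsimp only
          rw [Function.update_of_ne hj]
          rfl
      rw [key, key]
      exact hinv i P hP
    intro a
    have h1 : a = ∑ i, (a i).val • (Pi.single i 1 : Fin t → ZMod p) := by
      funext j
      rw [Finset.sum_apply, Finset.sum_eq_single j]
      · simp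
      · intro i _ hi
        simp [Pi.single_eq_of_ne hi.symm]
      · simp
    have h2 : a ∈ M := by
      rw [h1]
      exact sum_mem fun i _ => M.nsmul_mem (hgen i) _
    exact h2
  have main := corner_bound (p := p) f f f f0 fa f0 fa hsum A hA hinvf
  have hw : ∀ P : ((∀ i, V i) × W) × ((∀ i, V i) × W), ((Fintype.card (Fin t → ZMod p) : ℝ) /
      (univ.filter (fun a : Fin t → ZMod p => f a P.1 = P.1 ∧ f a P.2 = P.2)).card) ^
        (-(1 / (18 * Real.log p)) : ℝ) = ∏ i, wt (σ i) (P.1.1 i) (P.2.1 i) := by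
    intro P
    have h1 : (univ.filter (fun a : Fin t → ZMod p => f a P.1 = P.1 ∧ f a P.2 = P.2)) =
        Fintype.piFinset (fun i => univ.filter (fun a : ZMod p =>
          (σ i)^[a.val] (P.1.1 i) = P.1.1 i ∧ (σ i)^[a.val] (P.2.1 i) = P.2.1 i)) := by
      ext a
      simp only [mem_filter, mem_univ, true_and, Fintype.mem_piFinset, hf, Prod.ext_iff,
        funext_iff, and_true]
      exact ⟨fun h i => ⟨h.1 i, h.2 i⟩, fun h => ⟨fun i => (h i).1, fun i => (h i).2⟩⟩
    rw [h1, Fintype.card_piFinset, Fintype.card_fun, ZMod.card, Fintype.card_fin]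
    push_cast
    rw [← Fin.prod_const, ← Finset.prod_div_distrib]
    rw [← Real.finsetProd_rpow _ _ (fun i _ => by positivity)]
    exact prod_congr rfl fun i _ => card_fix (σ i) (hσp i) _ _
  have main' : (A.card : ℝ) ≤ 3 * ∑ P : ((∀ i, V i) × W) × ((∀ i, V i) × W),
      ∏ i, wt (σ i) (P.1.1 i) (P.2.1 i) := by
    refine main.trans (le_of_eq ?_)
    congr 1
    refine sum_congr rfl fun P _ => ?_
    rw [← hw P]
    congr!
  have hs : ∑ P : ((∀ i, V i) × W) × ((∀ i, V i) × W), ∏ i, wt (σ i) (P.1.1 i) (P.2.1 i) =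
      (Fintype.card W : ℝ) ^ 2 * ∏ i, ∑ x : V i, ∑ y : V i, wt (σ i) x y := by
    simp_rw [Fintype.sum_prod_type, sum_const, card_univ, nsmul_eq_mul]
    have h1 : ∀ v : (∀ i, V i), ∑ v' : (∀ i, V i), ∏ i, wt (σ i) (v i) (v' i) =
        ∏ i, ∑ y : V i, wt (σ i) (v i) y := by
      intro v
      rw [Finset.prod_univ_sum, Fintype.piFinset_univ]
    have h2 : ∑ v : (∀ i, V i), ∏ i, ∑ y : V i, wt (σ i) (v i) y =
        ∏ i, ∑ x : V i, ∑ y : V i, wt (σ i) x y := by
      rw [Finset.prod_univ_sum, Fintype.piFinset_univ]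
    rw [← h2]
    simp_rw [← h1, ← mul_sum]
    ring
  rw [hs] at main'
  refine main'.trans ?_
  have hprod : ∏ i, ∑ x : V i, ∑ y : V i, wt (σ i) x y ≤
      ∏ i, (24 / 25 * (Fintype.card (V i) : ℝ) ^ 2) := by
    refine prod_le_prod (fun i _ => ?_) fun i _ => sum_wt_le (σ i) (hσ1 i)
    refine sum_nonneg fun x _ => sum_nonneg fun y _ => ?_
    unfold wt
    split_ifs <;> positivity
  have hG : (Fintype.card ((∀ i, V i) × W) : ℝ) ^ 2 =
      (Fintype.card W : ℝ) ^ 2 * ∏ i, (Fintype.card (V i) : ℝ) ^ 2 := by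
    rw [Fintype.card_prod, Fintype.card_pi, prod_pow]
    push_cast
    ring
  rw [hG]
  calc 3 * ((Fintype.card W : ℝ) ^ 2 * ∏ i, ∑ x : V i, ∑ y : V i, wt (σ i) x y)
      ≤ 3 * ((Fintype.card W : ℝ) ^ 2 * ∏ i, (24 / 25 * (Fintype.card (V i) : ℝ) ^ 2)) := by gcongr
    _ = _ := by
        rw [prod_mul_distrib, Fin.prod_const]
        ring

end Pool.Agent.TH360.RS
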