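import Pool.Agent.TH360.RS.Main

/-!
# Corner-free sets with elementary abelian symmetry
-/

set_option autoImplicit false

namespace Pool.Agent.TH360.RS

open Finset Module

variable {p : ℕ} [Fact p.Prime]

open Classical in
theorem exp_rk {T X Y : Type*} [AddCommGroup T] [Module (ZMod p) T] [Fintype T] [AddAction T X]
    [AddAction T Y] (q : X × Y) : Real.exp (-(rk p T q : ℝ) / 18) =
      ((Fintype.card T : ℝ) / (univ.filter (fun a : T => a +ᵥ q.1 = q.1 ∧ a +ᵥ q.2 = q.2)).card) ^
        (-(1 / (18 * Real.log p)) : ℝ) := by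
  have hp2 : (2 : ℝ) ≤ p := by exact_mod_cast (Fact.out : p.Prime).two_le
  have hp0 : (0 : ℝ) < p := by linarith
  have hlog : Real.log p ≠ 0 := (Real.log_pos (by linarith)).ne'
  have hT : Fintype.card T = p ^ finrank (ZMod p) T := by
    rw [Module.card_eq_pow_finrank (K := ZMod p), ZMod.card]
  have hS : (univ.filter (fun a : T => a +ᵥ q.1 = q.1 ∧ a +ᵥ q.2 = q.2)).card =
      p ^ finrank (ZMod p) ↥(stab p T q.1 ⊓ stab p T q.2) := by
    have h1 : Fintype.card ↥(stab p T q.1 ⊓ stab p T q.2) =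
        p ^ finrank (ZMod p) ↥(stab p T q.1 ⊓ stab p T q.2) := by
      rw [Module.card_eq_pow_finrank (K := ZMod p), ZMod.card]
    rw [← h1, Fintype.card_subtype]
    congr 1
    ext a
    rw [mem_filter, mem_filter]
    exact Iff.rfl
  have hle : finrank (ZMod p) ↥(stab p T q.1 ⊓ stab p T q.2) ≤ finrank (ZMod p) T :=
    Submodule.finrank_le _
  have h1 : ((Fintype.card T : ℝ) /
      (univ.filter (fun a : T => a +ᵥ q.1 = q.1 ∧ a +ᵥ q.2 = q.2)).card) = (p : ℝ) ^ rk p T q := by
    rw [hT, hS, rk]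
    push_cast
    rw [div_eq_iff (by positivity), ← pow_add, Nat.sub_add_cancel hle]
  rw [h1, Real.rpow_def_of_pos (by positivity), Real.log_pow]
  congr 1
  field_simp

open Classical in
include p in
/-- **The corner bound** for a group acting through functions. -/
theorem corner_bound {T G : Type*} [AddCommGroup T] [Module (ZMod p) T] [Fintype T]
    [AddCommGroup G] [Fintype G] (f g h : T → G → G)
    (f0 : ∀ x, f 0 x = x) (fa : ∀ a b x, f (a + b) x = f a (f b x))
    (g0 : ∀ x, g 0 x = x) (ga : ∀ a b x, g (a + b) x = g a (g b x))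
    (hsum : ∀ a x y, f a x + g a y = h a (x + y)) (A : Finset (G × G))
    (hA : ∀ x y z : G, (x, y) ∈ A → (x, y + z) ∈ A → (x + z, y) ∈ A → z = 0)
    (hinv : ∀ a, ∀ P ∈ A, (f a P.1, g a P.2) ∈ A) :
    (A.card : ℝ) ≤ 3 * ∑ P : G × G, ((Fintype.card T : ℝ) /
      (univ.filter (fun a : T => f a P.1 = P.1 ∧ g a P.2 = P.2)).card) ^
        (-(1 / (18 * Real.log p)) : ℝ) := by
  have h0 : ∀ x, h 0 x = x := fun x => by
    have := hsum 0 x 0
    rw [f0, g0, add_zero] at this
    exact this.symm
  have ha : ∀ a b x, h (a + b) x = h a (h b x) := fun a b x => by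
    have h1 := hsum (a + b) x 0
    have h2 := hsum b x 0
    rw [add_zero] at h1 h2
    rw [← h1, ← h2, ← hsum, fa, ga]
  let iX : AddAction T G := { vadd := f, zero_vadd := f0, add_vadd := fa }
  let iY : AddAction T G := { vadd := g, zero_vadd := g0, add_vadd := ga }
  let iZ : AddAction T G := { vadd := h, zero_vadd := h0, add_vadd := ha }
  have main := @strata_bound p _ T G G G _ _ _ iX iY iZ _ _ _
    (A.image (fun P => (P.1, P.2, P.1 + P.2))) ?_ ?_ univ univ univ
    (fun _ _ _ _ => mem_univ _) (fun _ _ _ _ => mem_univ _) (fun _ _ _ _ => mem_univ _)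
  · have hcard : (A.image (fun P : G × G => (P.1, P.2, P.1 + P.2))).card = A.card :=
      card_image_of_injective _ fun P Q hPQ => by
        simp only [Prod.mk.injEq] at hPQ
        exact Prod.ext hPQ.1 hPQ.2.1
    rw [hcard] at main
    refine main.trans (le_of_eq ?_)
    have e1 : ∀ q : G × G, Real.exp (-(@rk p _ T G G _ _ iX iY q : ℝ) / 18) =
        ((Fintype.card T : ℝ) / (univ.filter (fun a : T => f a q.1 = q.1 ∧ g a q.2 = q.2)).card) ^
        (-(1 / (18 * Real.log p)) : ℝ) := fun q => @exp_rk p _ T G G _ _ _ iX iY q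
    have e2 : ∀ q : G × G, Real.exp (-(@rk p _ T G G _ _ iY iZ q : ℝ) / 18) =
        ((Fintype.card T : ℝ) / (univ.filter (fun a : T => g a q.1 = q.1 ∧ h a q.2 = q.2)).card) ^
        (-(1 / (18 * Real.log p)) : ℝ) := fun q => @exp_rk p _ T G G _ _ _ iY iZ q
    have e3 : ∀ q : G × G, Real.exp (-(@rk p _ T G G _ _ iZ iX q : ℝ) / 18) =
        ((Fintype.card T : ℝ) / (univ.filter (fun a : T => h a q.1 = q.1 ∧ f a q.2 = q.2)).card) ^
        (-(1 / (18 * Real.log p)) : ℝ) := fun q => @exp_rk p _ T G G _ _ _ iZ iX q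
    simp_rw [e1, e2, e3]
    have s2 : ∑ q : G × G,
        ((Fintype.card T : ℝ) / (univ.filter (fun a : T => g a q.1 = q.1 ∧ h a q.2 = q.2)).card) ^
        (-(1 / (18 * Real.log p)) : ℝ) = ∑ q : G × G,
        ((Fintype.card T : ℝ) / (univ.filter (fun a : T => f a q.1 = q.1 ∧ g a q.2 = q.2)).card) ^
        (-(1 / (18 * Real.log p)) : ℝ) := by
      symm
      refine Fintype.sum_equiv
        { toFun := fun P : G × G => (P.2, P.1 + P.2)
          invFun := fun Q : G × G => (Q.2 - Q.1, Q.1)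
          left_inv := fun P => by simp
          right_inv := fun Q => by simp } _ _ fun P => ?_
      have : (univ.filter (fun a : T => f a P.1 = P.1 ∧ g a P.2 = P.2)) =
          (univ.filter (fun a : T => g a P.2 = P.2 ∧ h a (P.1 + P.2) = P.1 + P.2)) := by
        ext a
        rw [mem_filter, mem_filter, ← hsum]
        constructor
        · rintro ⟨_, h1, h2⟩
          exact ⟨mem_univ _, h2, by rw [h1, h2]⟩
        · rintro ⟨_, h1, h2⟩
          rw [h1] at h2
          exact ⟨mem_univ _, add_right_cancel h2, h1⟩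
      rw [this]
      rfl
    have s3 : ∑ q : G × G,
        ((Fintype.card T : ℝ) / (univ.filter (fun a : T => h a q.1 = q.1 ∧ f a q.2 = q.2)).card) ^
        (-(1 / (18 * Real.log p)) : ℝ) = ∑ q : G × G,
        ((Fintype.card T : ℝ) / (univ.filter (fun a : T => f a q.1 = q.1 ∧ g a q.2 = q.2)).card) ^
        (-(1 / (18 * Real.log p)) : ℝ) := by
      symm
      refine Fintype.sum_equiv
        { toFun := fun P : G × G => (P.1 + P.2, P.1)
          invFun := fun Q : G × G => (Q.2, Q.1 - Q.2)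
          left_inv := fun P => by simp
          right_inv := fun Q => by simp } _ _ fun P => ?_
      have : (univ.filter (fun a : T => f a P.1 = P.1 ∧ g a P.2 = P.2)) =
          (univ.filter (fun a : T => h a (P.1 + P.2) = P.1 + P.2 ∧ f a P.1 = P.1)) := by
        ext a
        rw [mem_filter, mem_filter, ← hsum]
        constructor
        · rintro ⟨_, h1, h2⟩
          exact ⟨mem_univ _, by rw [h1, h2], h1⟩
        · rintro ⟨_, h1, h2⟩
          rw [h2] at h1
          exact ⟨mem_univ _, h2, add_left_cancel h1⟩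
      rw [this]
      rfl
    rw [s2, s3]
    ring
  · intro a P hP
    obtain ⟨Q, hQ, rfl⟩ := mem_image.1 hP
    refine mem_image.2 ⟨(f a Q.1, g a Q.2), hinv a Q hQ, ?_⟩
    change (f a Q.1, g a Q.2, f a Q.1 + g a Q.2) = (f a Q.1, g a Q.2, h a (Q.1 + Q.2))
    rw [hsum]
  · intro x y z x' y' z' h1 h2 h3
    obtain ⟨Q1, hQ1, e1⟩ := mem_image.1 h1
    obtain ⟨Q2, hQ2, e2⟩ := mem_image.1 h2
    obtain ⟨Q3, hQ3, e3⟩ := mem_image.1 h3
    simp only [Prod.mk.injEq] at e1 e2 e3
    obtain ⟨a1, a2, a3⟩ := e1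
    obtain ⟨b1, b2, b3⟩ := e2
    obtain ⟨c1, c2, c3⟩ := e3
    have d1 : z' = x + y := by rw [← a3, a1, a2]
    have d2 : z = x + y' := by rw [← b3, b1, b2]
    have d3 : z = x' + y := by rw [← c3, c1, c2]
    have k1 : (x, y) ∈ A := by rw [← a1, ← a2]; exact hQ1
    have k2 : (x, y + (y' - y)) ∈ A := by
      have : y + (y' - y) = y' := by abel
      rw [this, ← b1, ← b2]; exact hQ2
    have k3 : (x + (y' - y), y) ∈ A := by
      have : x + (y' - y) = x' := by
        have e : x + y' = x' + y := by rw [← d2, d3]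
        rw [← add_sub_assoc, e]; simp
      rw [this, ← c1, ← c2]; exact hQ3
    have k := hA x y (y' - y) k1 k2 k3
    have hy : y' = y := sub_eq_zero.1 k
    subst hy
    refine ⟨?_, rfl, by rw [d1, d2]⟩
    have e : x + y' = x' + y' := by rw [← d2, d3]
    exact add_right_cancel e

open Classical in
include p in
/-- The corner bound for a group action on `G × G`. -/
theorem corner_action {Γ G : Type*} [CommGroup Γ] [Finite Γ] [AddCommGroup G] [Fintype G]
    [MulAction Γ (G × G)] (hexp : ∀ γ : Γ, γ ^ p = 1)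
    (haff : ∀ γ : Γ, ∃ (σ : G ≃+ G) (a b : G), ∀ x y : G, γ • (x, y) = (σ x + a, σ y + b))
    (A : Finset (G × G))
    (hA : ∀ x y z : G, (x, y) ∈ A → (x, y + z) ∈ A → (x + z, y) ∈ A → z = 0)
    (hinv : ∀ γ : Γ, ∀ P ∈ A, γ • P ∈ A) :
    (A.card : ℝ) ≤ 3 * ∑ P : G × G, (Nat.card (MulAction.orbit Γ P) : ℝ) ^
        (-(1 / (18 * Real.log p)) : ℝ) := by
  have : Fintype Γ := Fintype.ofFinite Γ
  choose σ u v huv using haff
  let _ : Module (ZMod p) (Additive Γ) := AddCommGroup.zmodModule (n := p) (fun γ => by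
    have := hexp γ.toMul
    rw [← ofMul_toMul γ, ← ofMul_pow, this]
    rfl)
  have : Fintype (Additive Γ) := inferInstanceAs (Fintype Γ)
  have hf : ∀ (γ : Γ) (x y : G), γ • (x, y) = ((γ • ((x, 0) : G × G)).1, (γ • ((0, y) : G × G)).2) :=
    fun γ x y => by rw [huv, huv, huv]
  have main := corner_bound (p := p) (T := Additive Γ) (G := G)
    (fun γ x => (γ.toMul • ((x, 0) : G × G)).1) (fun γ y => (γ.toMul • ((0, y) : G × G)).2)
    (fun γ z => (γ.toMul • ((z, 0) : G × G)).1 + (γ.toMul • ((z, 0) : G × G)).2)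
    (fun x => by rw [toMul_zero, one_smul])
    (fun a b x => by
      rw [toMul_add, mul_smul]
      have h2 := hf a.toMul (b.toMul • ((x, 0) : G × G)).1 (b.toMul • ((x, 0) : G × G)).2
      rw [Prod.mk.eta] at h2
      rw [h2])
    (fun x => by rw [toMul_zero, one_smul])
    (fun a b x => by
      rw [toMul_add, mul_smul]
      have h2 := hf a.toMul (b.toMul • ((0, x) : G × G)).1 (b.toMul • ((0, x) : G × G)).2
      rw [Prod.mk.eta] at h2
      rw [h2])
    (fun γ x y => by
      rw [huv, huv, huv]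
      simp only [map_add, map_zero]
      abel)
    A hA (fun γ P hP => by
      have := hinv γ.toMul P hP
      obtain ⟨x, y⟩ := P
      rw [hf] at this
      exact this)
  refine main.trans (le_of_eq ?_)
  congr 1
  refine sum_congr rfl fun P _ => ?_
  congr 1
  have hos := MulAction.card_orbit_mul_card_stabilizer_eq_card_group Γ P
  have hst : (univ.filter (fun γ : Additive Γ => (γ.toMul • ((P.1, 0) : G × G)).1 = P.1 ∧
      (γ.toMul • ((0, P.2) : G × G)).2 = P.2)).card =
      Fintype.card (MulAction.stabilizer Γ P) := by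
    rw [Fintype.card_subtype]
    refine card_bij (fun γ _ => γ.toMul) ?_ ?_ ?_
    · intro γ hγ
      refine mem_filter.2 ⟨mem_univ _, ?_⟩
      have h1 := (mem_filter.1 hγ).2
      rw [MulAction.mem_stabilizer_iff]
      obtain ⟨x, y⟩ := P
      rw [hf]
      exact Prod.ext h1.1 h1.2
    · intro γ _ γ' _ h
      exact h
    · intro γ hγ
      refine ⟨Additive.ofMul γ, mem_filter.2 ⟨mem_univ _, ?_⟩, rfl⟩
      have h1 := MulAction.mem_stabilizer_iff.1 (mem_filter.1 hγ).2
      obtain ⟨x, y⟩ := P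
      rw [hf] at h1
      rw [Prod.mk.injEq] at h1
      exact h1
  have hpos : (0 : ℝ) < (Fintype.card (MulAction.stabilizer Γ P) : ℝ) := by
    exact_mod_cast Fintype.card_pos
  have hcT : Fintype.card (Additive Γ) = Fintype.card Γ := Fintype.card_congr (Equiv.refl _)
  rw [hst, hcT, ← hos, Nat.card_eq_fintype_card]
  push_cast
  field_simp

end Pool.Agent.TH360.RS
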