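import Pool.Agent.TH360.RS.Blocks

/-!
# Corner-free sets: the orbits that are more than two thirds full
-/

set_option autoImplicit false

namespace Pool.Agent.TH360.RS

open Finset Module

variable {p : ℕ} [Fact p.Prime]

open Classical in
theorem card_hit {Γ X : Type*} [Group Γ] [Fintype Γ] [Fintype X] [MulAction Γ X] (A : Finset X)
    (P : X) : (univ.filter (fun γ : Γ => γ • P ∈ A)).card =
      (A.filter (fun Q => Q ∈ MulAction.orbit Γ P)).card *
        Fintype.card (MulAction.stabilizer Γ P) := by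
  rw [card_eq_sum_card_fiberwise (f := fun γ : Γ => γ • P)
    (t := A.filter (fun Q => Q ∈ MulAction.orbit Γ P))]
  · rw [← smul_eq_mul, ← sum_const]
    refine sum_congr rfl fun Q hQ => ?_
    obtain ⟨hQA, γ₀, hγ₀⟩ := mem_filter.1 hQ
    have hγ₀' : γ₀ • P = Q := hγ₀
    rw [Fintype.card_subtype]
    refine card_bij (fun γ _ => γ₀⁻¹ * γ) ?_ ?_ ?_
    · intro γ hγ
      have h1 : γ • P = Q := (mem_filter.1 hγ).2
      refine mem_filter.2 ⟨mem_univ _, MulAction.mem_stabilizer_iff.2 ?_⟩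
      rw [mul_smul, h1, ← hγ₀', inv_smul_smul]
    · intro γ _ γ' _ h
      exact mul_left_cancel h
    · intro γ hγ
      have h1 := MulAction.mem_stabilizer_iff.1 (mem_filter.1 hγ).2
      have h2 : (γ₀ * γ) • P = Q := by rw [mul_smul, h1, hγ₀']
      refine ⟨γ₀ * γ, mem_filter.2 ⟨mem_filter.2 ⟨mem_univ _, ?_⟩, h2⟩, by group⟩
      rw [h2]
      exact hQA
  · intro γ hγ
    exact mem_coe.2 (mem_filter.2 ⟨(mem_filter.1 hγ).2, ⟨γ, rfl⟩⟩)

open Classical in
theorem exists_common {Γ X : Type*} [Group Γ] [Finite Γ] [Finite X] [MulAction Γ X] (A : Finset X)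
    (P : Fin 3 → X) (hP : ∀ i, 2 * Nat.card (MulAction.orbit Γ (P i)) <
      3 * (A.filter (fun Q => Q ∈ MulAction.orbit Γ (P i))).card) :
    ∃ γ : Γ, ∀ i, γ • P i ∈ A := by
  have : Fintype Γ := Fintype.ofFinite Γ
  have : Fintype X := Fintype.ofFinite X
  have h1 : ∀ i, 3 * (univ.filter (fun γ : Γ => ¬ γ • P i ∈ A)).card < Fintype.card Γ := by
    intro i
    have h2 := card_hit (Γ := Γ) A (P i)
    have h3 := MulAction.card_orbit_mul_card_stabilizer_eq_card_group Γ (P i)
    have h4 := hP i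
    rw [Nat.card_eq_fintype_card] at h4
    have h5 : 0 < Fintype.card (MulAction.stabilizer Γ (P i)) := Fintype.card_pos
    have h6 := (Nat.mul_lt_mul_right h5).2 h4
    have h7 := card_filter_add_card_filter_not (s := (univ : Finset Γ)) (fun γ => γ • P i ∈ A)
    rw [card_univ] at h7
    nlinarith
  by_contra hcon
  push Not at hcon
  have h2 : (univ : Finset Γ) ⊆ (univ : Finset (Fin 3)).biUnion
      (fun i => univ.filter (fun γ : Γ => ¬ γ • P i ∈ A)) := by
    intro γ _
    obtain ⟨i, hi⟩ := hcon γ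
    exact mem_biUnion.2 ⟨i, mem_univ _, mem_filter.2 ⟨mem_univ _, hi⟩⟩
  have h3 := (card_le_card h2).trans card_biUnion_le
  rw [card_univ, Fin.sum_univ_three] at h3
  have a0 := h1 0
  have a1 := h1 1
  have a2 := h1 2
  omega

open Classical in
include p in
/-- **The corner bound for dense orbits.** -/
theorem corner_dense {Γ G : Type*} [CommGroup Γ] [Finite Γ] [AddCommGroup G] [Fintype G]
    [MulAction Γ (G × G)] (hexp : ∀ γ : Γ, γ ^ p = 1)
    (haff : ∀ γ : Γ, ∃ (σ : G ≃+ G) (a b : G), ∀ x y : G, γ • (x, y) = (σ x + a, σ y + b))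
    (A : Finset (G × G))
    (hA : ∀ x y z : G, (x, y) ∈ A → (x, y + z) ∈ A → (x + z, y) ∈ A → z = 0) :
    ((univ.filter (fun P : G × G => 2 * Nat.card (MulAction.orbit Γ P) <
      3 * (A.filter (fun Q => Q ∈ MulAction.orbit Γ P)).card)).card : ℝ) ≤
        3 * ∑ P : G × G, (Nat.card (MulAction.orbit Γ P) : ℝ) ^
        (-(1 / (18 * Real.log p)) : ℝ) := by
  refine corner_action hexp haff _ ?_ ?_
  · intro x y z h1 h2 h3
    obtain ⟨γ, hγ⟩ := exists_common (Γ := Γ) A ![(x, y), (x, y + z), (x + z, y)] (by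
      intro i
      fin_cases i
      · exact (mem_filter.1 h1).2
      · exact (mem_filter.1 h2).2
      · exact (mem_filter.1 h3).2)
    obtain ⟨σ, a, b, hσ⟩ := haff γ
    have g1 := hγ 0
    have g2 := hγ 1
    have g3 := hγ 2
    change γ • (x, y) ∈ A at g1
    change γ • (x, y + z) ∈ A at g2
    change γ • (x + z, y) ∈ A at g3
    rw [hσ] at g1 g2 g3
    have e2 : (σ x + a, σ (y + z) + b) = (σ x + a, (σ y + b) + σ z) := by
      rw [map_add]; congr 1; abel
    have e3 : (σ (x + z) + a, σ y + b) = ((σ x + a) + σ z, σ y + b) := by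
      rw [map_add]; congr 1; abel
    rw [e2] at g2
    rw [e3] at g3
    have := hA _ _ _ g1 g2 g3
    exact (map_eq_zero_iff σ σ.injective).1 this
  · intro γ P hP
    rw [mem_filter] at hP ⊢
    refine ⟨mem_univ _, ?_⟩
    rw [MulAction.orbit_smul]
    exact hP.2

end Pool.Agent.TH360.RS
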