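import Pool.Agent.TH360.RS.Act

/-!
# The bound for invariant induced-triangle systems
-/

set_option autoImplicit false

namespace Pool.Agent.TH360.RS

open Finset Module

variable {p : ℕ} [Fact p.Prime]
variable {T X Y Z : Type*} [AddCommGroup T] [Module (ZMod p) T] [Fintype T] [AddAction T X]
  [AddAction T Y] [AddAction T Z] [Fintype X] [Fintype Y] [Fintype Z]

open Classical in
include p in
/-- The bound for free actions. -/
theorem free_bound (H : Finset (X × Y × Z)) (hinv : ∀ τ : T, ∀ h ∈ H, τ +ᵥ h ∈ H)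
    (hRS : ∀ (x : X) (y : Y) (z : Z) (x' : X) (y' : Y) (z' : Z), (x, y, z') ∈ H →
      (x, y', z) ∈ H → (x', y, z) ∈ H → x = x' ∧ y = y' ∧ z = z')
    (hfree : ∀ h ∈ H, ∀ τ : T, τ +ᵥ h = h → τ = 0)
    (Pxy : Finset (X × Y)) (Pyz : Finset (Y × Z)) (Pzx : Finset (Z × X))
    (hxy : ∀ h ∈ H, ∀ a b : T, (a +ᵥ h.1, b +ᵥ h.2.1) ∈ Pxy)
    (hyz : ∀ h ∈ H, ∀ a b : T, (a +ᵥ h.2.1, b +ᵥ h.2.2) ∈ Pyz)
    (hzx : ∀ h ∈ H, ∀ a b : T, (a +ᵥ h.2.2, b +ᵥ h.1) ∈ Pzx) :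
    (H.card : ℝ) ≤
      Real.exp (-(finrank (ZMod p) T : ℝ) / 18) * (Pxy.card + Pyz.card + Pzx.card) := by
  set I := {h : X × Y × Z // h ∈ H ∧ bar T h = h} with hI
  have hT : Fintype.card T = p ^ finrank (ZMod p) T := by
    rw [Module.card_eq_pow_finrank (K := ZMod p), ZMod.card]
  have hcov : H.card ≤ Fintype.card I * Fintype.card T := by
    have hsub : H ⊆ (univ : Finset (I × T)).image (fun q => q.2 +ᵥ q.1.1) := by
      intro h hh
      have hb : bar T h ∈ H := by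
        have : bar T h = (-(co T h)) +ᵥ h := by
          have h1 : (-(co T h)) +ᵥ (co T h +ᵥ bar T h) = bar T h := by simp
          rw [co_vadd] at h1
          exact h1.symm
        rw [this]
        exact hinv _ _ hh
      exact mem_image.2 ⟨(⟨bar T h, hb, bar_bar h⟩, co T h), mem_univ _, co_vadd h⟩
    refine (card_le_card hsub).trans (card_image_le.trans ?_)
    rw [card_univ, Fintype.card_prod]
  have hcov' : (H.card : ℝ) ≤ (Fintype.card I : ℝ) * (p : ℝ) ^ finrank (ZMod p) T := by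
    rw [hT] at hcov
    exact_mod_cast hcov
  refine hcov'.trans ?_
  refine reps_bound (fun i : I => i.1.1) (fun i : I => i.1.2.1) (fun i : I => i.1.2.2) ?_
    Pxy Pyz Pzx (fun i a b => hxy _ i.2.1 a b) (fun i a b => hyz _ i.2.1 a b)
    (fun i a b => hzx _ i.2.1 a b)
  rintro ⟨⟨xi, yi, zi⟩, hi, hbi⟩ ⟨⟨xj, yj, zj⟩, hj, hbj⟩ ⟨⟨xl, yl, zl⟩, hl, hbl⟩ a b c habc ha hb hc
  dsimp only at ha hb hc
  have hj' : (a +ᵥ xj, yi, a +ᵥ zj) ∈ H := by
    have := hinv a _ hj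
    rw [← ha]
    exact this
  have hl' : (xi, (a + b) +ᵥ yl, a +ᵥ zj) ∈ H := by
    have h1 := hinv (a + b) _ hl
    have h2 : (a + b) +ᵥ xl = xi := by
      rw [← hc, ← add_vadd, habc, zero_vadd]
    have h3 : (a + b) +ᵥ zl = a +ᵥ zj := by rw [← hb, ← add_vadd]
    have h4 : (a + b) +ᵥ ((xl, yl, zl) : X × Y × Z) = (xi, (a + b) +ᵥ yl, a +ᵥ zj) := by
      rw [← h2, ← h3]; rfl
    rwa [h4] at h1
  obtain ⟨e1, e2, e3⟩ := hRS xi yi (a +ᵥ zj) (a +ᵥ xj) ((a + b) +ᵥ yl) zi hi hl' hj'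
  have f1 : ((xi, yi, zi) : X × Y × Z) = a +ᵥ ((xj, yj, zj) : X × Y × Z) := by
    rw [Prod.mk.injEq, Prod.mk.injEq] 
    exact ⟨e1, ha.symm, e3.symm⟩
  have f2 : ((xi, yi, zi) : X × Y × Z) = (a + b) +ᵥ ((xl, yl, zl) : X × Y × Z) := by
    have h2 : (a + b) +ᵥ xl = xi := by
      rw [← hc, ← add_vadd, habc, zero_vadd]
    have h3 : (a + b) +ᵥ zl = a +ᵥ zj := by rw [← hb, ← add_vadd]
    rw [Prod.mk.injEq, Prod.mk.injEq]
    exact ⟨h2.symm, e2, by rw [← e3, ← h3]; rfl⟩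
  have g1 : ((xi, yi, zi) : X × Y × Z) = (xj, yj, zj) := by
    have := congr_arg (bar T) f1
    rwa [bar_vadd, hbi, hbj] at this
  have g2 : ((xi, yi, zi) : X × Y × Z) = (xl, yl, zl) := by
    have := congr_arg (bar T) f2
    rwa [bar_vadd, hbi, hbl] at this
  have a0 : a = 0 := hfree _ hj a (by rw [← f1, g1])
  have ab0 : a + b = 0 := hfree _ hl (a + b) (by rw [← f2, g2])
  refine ⟨Subtype.ext g1, Subtype.ext (by dsimp only; rw [← g1, g2]), a0, ?_⟩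
  rwa [a0, zero_add] at ab0

/-- the rank of the orbit of a pair -/
noncomputable def rk (p : ℕ) [Fact p.Prime] (T : Type*) {X Y : Type*} [AddCommGroup T]
    [Module (ZMod p) T] [AddAction T X] [AddAction T Y] (q : X × Y) : ℕ :=
  finrank (ZMod p) T - finrank (ZMod p) ↥(stab p T q.1 ⊓ stab p T q.2)

omit [Fintype T] in
open Classical in
theorem sum_strata [Fintype (Submodule (ZMod p) T)] {V W : Type*} [AddAction T V] [AddAction T W]
    (P : Finset (V × W)) :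
    ∑ U : Submodule (ZMod p) T, Real.exp (-((finrank (ZMod p) T - finrank (ZMod p) U : ℕ) : ℝ) / 18)
      * ((P.filter (fun q => stab p T q.1 ⊓ stab p T q.2 = U)).card : ℝ) =
    ∑ q ∈ P, Real.exp (-(rk p T q : ℝ) / 18) := by
  rw [← Finset.sum_fiberwise P (fun q => stab p T q.1 ⊓ stab p T q.2)]
  refine sum_congr rfl fun U _ => ?_
  rw [mul_comm, ← nsmul_eq_mul, ← sum_const]
  refine sum_congr rfl fun q hq => ?_
  rw [rk, (mem_filter.1 hq).2]

open Classical in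
/-- **The bound for arbitrary actions.** -/
theorem strata_bound (H : Finset (X × Y × Z)) (hinv : ∀ τ : T, ∀ h ∈ H, τ +ᵥ h ∈ H)
    (hRS : ∀ (x : X) (y : Y) (z : Z) (x' : X) (y' : Y) (z' : Z), (x, y, z') ∈ H →
      (x, y', z) ∈ H → (x', y, z) ∈ H → x = x' ∧ y = y' ∧ z = z')
    (Pxy : Finset (X × Y)) (Pyz : Finset (Y × Z)) (Pzx : Finset (Z × X))
    (hxy : ∀ h ∈ H, ∀ a b : T, (a +ᵥ h.1, b +ᵥ h.2.1) ∈ Pxy)
    (hyz : ∀ h ∈ H, ∀ a b : T, (a +ᵥ h.2.1, b +ᵥ h.2.2) ∈ Pyz)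
    (hzx : ∀ h ∈ H, ∀ a b : T, (a +ᵥ h.2.2, b +ᵥ h.1) ∈ Pzx) :
    (H.card : ℝ) ≤ ∑ q ∈ Pxy, Real.exp (-(rk p T q : ℝ) / 18) +
      ∑ q ∈ Pyz, Real.exp (-(rk p T q : ℝ) / 18) + ∑ q ∈ Pzx, Real.exp (-(rk p T q : ℝ) / 18) := by
  have hfin : Finite (Submodule (ZMod p) T) :=
    Finite.of_injective (fun U => (U : Set T)) SetLike.coe_injective
  have : Fintype (Submodule (ZMod p) T) := Fintype.ofFinite _
  have hstab : ∀ h : X × Y × Z, ∀ a : T, a ∈ stab p T h ↔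
      a ∈ stab p T h.1 ∧ a ∈ stab p T h.2.1 ∧ a ∈ stab p T h.2.2 := by
    rintro ⟨x, y, z⟩ a
    simp only [mem_stab, Prod.ext_iff, Prod.vadd_fst, Prod.vadd_snd]
  have hpair : ∀ h ∈ H, stab p T h.1 ⊓ stab p T h.2.1 = stab p T h ∧
      stab p T h.2.1 ⊓ stab p T h.2.2 = stab p T h ∧
      stab p T h.2.2 ⊓ stab p T h.1 = stab p T h := by
    rintro ⟨x, y, z⟩ hh
    refine ⟨?_, ?_, ?_⟩
    · ext a
      rw [hstab, Submodule.mem_inf]
      refine ⟨fun ⟨h1, h2⟩ => ⟨h1, h2, ?_⟩, fun ⟨h1, h2, _⟩ => ⟨h1, h2⟩⟩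
      have h3 := hinv a _ hh
      have h4 : a +ᵥ ((x, y, z) : X × Y × Z) = (x, y, a +ᵥ z) :=
        Prod.ext (mem_stab.1 h1) (Prod.ext (mem_stab.1 h2) rfl)
      rw [h4] at h3
      exact mem_stab.2 (hRS x y z x y (a +ᵥ z) h3 hh hh).2.2.symm
    · ext a
      rw [hstab, Submodule.mem_inf]
      refine ⟨fun ⟨h1, h2⟩ => ⟨?_, h1, h2⟩, fun ⟨_, h1, h2⟩ => ⟨h1, h2⟩⟩
      have h3 := hinv a _ hh
      have h4 : a +ᵥ ((x, y, z) : X × Y × Z) = (a +ᵥ x, y, z) :=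
        Prod.ext rfl (Prod.ext (mem_stab.1 h1) (mem_stab.1 h2))
      rw [h4] at h3
      exact mem_stab.2 (hRS x y z (a +ᵥ x) y z hh hh h3).1.symm
    · ext a
      rw [hstab, Submodule.mem_inf]
      refine ⟨fun ⟨h1, h2⟩ => ⟨h2, ?_, h1⟩, fun ⟨h1, _, h2⟩ => ⟨h2, h1⟩⟩
      have h3 := hinv a _ hh
      have h4 : a +ᵥ ((x, y, z) : X × Y × Z) = (x, a +ᵥ y, z) :=
        Prod.ext (mem_stab.1 h2) (Prod.ext rfl (mem_stab.1 h1))
      rw [h4] at h3
      exact mem_stab.2 (hRS x y z x (a +ᵥ y) z hh h3 hh).2.1.symm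
  -- the bound on a stratum
  have key : ∀ U : Submodule (ZMod p) T, ((H.filter (fun h => stab p T h = U)).card : ℝ) ≤
      Real.exp (-((finrank (ZMod p) T - finrank (ZMod p) U : ℕ) : ℝ) / 18) *
      ((Pxy.filter (fun q => stab p T q.1 ⊓ stab p T q.2 = U)).card +
        (Pyz.filter (fun q => stab p T q.1 ⊓ stab p T q.2 = U)).card +
        (Pzx.filter (fun q => stab p T q.1 ⊓ stab p T q.2 = U)).card) := by
    intro U
    obtain ⟨C, hC⟩ := Submodule.exists_isCompl U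
    have hdim : finrank (ZMod p) T - finrank (ZMod p) U = finrank (ZMod p) C := by
      have := Submodule.finrank_add_eq_of_isCompl hC
      omega
    rw [hdim]
    refine free_bound (T := C) (p := p) (H.filter (fun h => stab p T h = U)) ?_ ?_ ?_ _ _ _ ?_ ?_ ?_
    · intro τ h hh
      rw [mem_filter] at hh ⊢
      refine ⟨hinv (τ : T) h hh.1, ?_⟩
      rw [← hh.2]
      exact stab_vadd (τ : T) h
    · intro x y z x' y' z' h1 h2 h3
      exact hRS x y z x' y' z' (mem_filter.1 h1).1 (mem_filter.1 h2).1 (mem_filter.1 h3).1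
    · intro h hh τ hτ
      rw [mem_filter] at hh
      have h1 : (τ : T) ∈ stab p T h := mem_stab.2 hτ
      rw [hh.2] at h1
      have h2 := Submodule.disjoint_def.1 hC.disjoint (τ : T) h1 τ.2
      exact Subtype.ext h2
    · intro h hh a b
      rw [mem_filter] at hh ⊢
      refine ⟨hxy h hh.1 (a : T) (b : T), ?_⟩
      have e1 : stab p T ((a : T) +ᵥ h.1) = stab p T h.1 := stab_vadd _ _
      have e2 : stab p T ((b : T) +ᵥ h.2.1) = stab p T h.2.1 := stab_vadd _ _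
      change stab p T ((a : T) +ᵥ h.1) ⊓ stab p T ((b : T) +ᵥ h.2.1) = U
      rw [e1, e2, (hpair h hh.1).1, hh.2]
    · intro h hh a b
      rw [mem_filter] at hh ⊢
      refine ⟨hyz h hh.1 (a : T) (b : T), ?_⟩
      have e1 : stab p T ((a : T) +ᵥ h.2.1) = stab p T h.2.1 := stab_vadd _ _
      have e2 : stab p T ((b : T) +ᵥ h.2.2) = stab p T h.2.2 := stab_vadd _ _
      change stab p T ((a : T) +ᵥ h.2.1) ⊓ stab p T ((b : T) +ᵥ h.2.2) = U
      rw [e1, e2, (hpair h hh.1).2.1, hh.2]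
    · intro h hh a b
      rw [mem_filter] at hh ⊢
      refine ⟨hzx h hh.1 (a : T) (b : T), ?_⟩
      have e1 : stab p T ((a : T) +ᵥ h.2.2) = stab p T h.2.2 := stab_vadd _ _
      have e2 : stab p T ((b : T) +ᵥ h.1) = stab p T h.1 := stab_vadd _ _
      change stab p T ((a : T) +ᵥ h.2.2) ⊓ stab p T ((b : T) +ᵥ h.1) = U
      rw [e1, e2, (hpair h hh.1).2.2, hh.2]
  have hH : (H.card : ℝ) = ∑ U : Submodule (ZMod p) T,
      ((H.filter (fun h => stab p T h = U)).card : ℝ) := by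
    rw [← Nat.cast_sum, ← card_eq_sum_card_fiberwise (fun _ _ => mem_coe.2 (mem_univ _))]
  rw [hH]
  refine (sum_le_sum fun U _ => key U).trans ?_
  rw [← sum_strata Pxy, ← sum_strata Pyz, ← sum_strata Pzx, ← sum_add_distrib, ← sum_add_distrib]
  refine le_of_eq (sum_congr rfl fun U _ => ?_)
  ring

end Pool.Agent.TH360.RS
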