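import Mathlib

/-!
# Polynomial functions over a prime field: degrees, products, and the number of low monomials
-/

set_option autoImplicit false

namespace Pool.Agent.TH360.RS

open Finset Module

variable {p : ℕ} [Fact p.Prime] {ι : Type*} [Fintype ι]

/-- the monomial function with exponents `m` -/
def mono (m : ι → ℕ) (x : ι → ZMod p) : ZMod p := ∏ e, x e ^ m e

variable (p ι) in
/-- polynomial functions of degree at most `D` -/
def Pol (D : ℕ) : Submodule (ZMod p) ((ι → ZMod p) → ZMod p) :=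
  Submodule.span _ {f | ∃ m : ι → ℕ, ∑ e, m e ≤ D ∧ f = mono m}

theorem mono_mem_Pol {m : ι → ℕ} {D : ℕ} (h : ∑ e, m e ≤ D) : (mono m) ∈ Pol p ι D :=
  Submodule.subset_span ⟨m, h, rfl⟩

theorem mono_add (m m' : ι → ℕ) : (mono (p := p) (m + m')) = mono m * mono m' := by
  funext x
  simp [mono, pow_add, prod_mul_distrib]

theorem mono_zero : (mono (p := p) (0 : ι → ℕ)) = 1 := by
  funext x
  simp [mono]

theorem Pol_mono {D E : ℕ} (h : D ≤ E) : Pol p ι D ≤ Pol p ι E :=
  Submodule.span_mono fun _ ⟨m, hm, e⟩ => ⟨m, hm.trans h, e⟩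

theorem mul_mem_Pol {D E : ℕ} {f g : (ι → ZMod p) → ZMod p} (hf : f ∈ Pol p ι D)
    (hg : g ∈ Pol p ι E) : f * g ∈ Pol p ι (D + E) := by
  have := Submodule.mul_mem_mul hf hg
  rw [Pol, Pol, Submodule.span_mul_span] at this
  refine Submodule.span_mono ?_ this
  rintro _ ⟨_, ⟨m, hm, rfl⟩, _, ⟨m', hm', rfl⟩, rfl⟩
  refine ⟨m + m', ?_, (mono_add m m').symm⟩
  simp only [Pi.add_apply, sum_add_distrib]
  omega

theorem one_mem_Pol (D : ℕ) : (1 : (ι → ZMod p) → ZMod p) ∈ Pol p ι D := by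
  rw [← mono_zero]
  exact mono_mem_Pol (by simp)

theorem pow_mem_Pol {D : ℕ} {f : (ι → ZMod p) → ZMod p} (hf : f ∈ Pol p ι D) (n : ℕ) :
    f ^ n ∈ Pol p ι (n * D) := by
  induction n with
  | zero => simpa using one_mem_Pol 0
  | succ n ih =>
    rw [pow_succ, Nat.succ_mul]
    exact mul_mem_Pol ih hf

theorem prod_mem_Pol {κ : Type*} (S : Finset κ) (f : κ → (ι → ZMod p) → ZMod p) (D : κ → ℕ)
    (hf : ∀ e ∈ S, f e ∈ Pol p ι (D e)) : (∏ e ∈ S, f e) ∈ Pol p ι (∑ e ∈ S, D e) := by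
  classical
  induction S using Finset.induction_on with
  | empty => simpa using one_mem_Pol 0
  | insert a S ha ih =>
    rw [prod_insert ha, sum_insert ha]
    exact mul_mem_Pol (hf a (mem_insert_self a S)) (ih fun e he => hf e (mem_insert_of_mem he))

theorem coord_mem_Pol (e : ι) : (fun x : ι → ZMod p => x e) ∈ Pol p ι 1 := by
  classical
  have : (fun x : ι → ZMod p => x e) = mono (fun e' => if e' = e then 1 else 0) := by
    funext x
    simp [mono, Finset.prod_ite_eq', pow_ite]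
  rw [this]
  exact mono_mem_Pol (by simp)

theorem linear_mem_Pol (ψ : (ι → ZMod p) →ₗ[ZMod p] ZMod p) : (fun x => ψ x) ∈ Pol p ι 1 := by
  classical
  have : (fun x => ψ x) = ∑ e, ψ (Pi.single e 1) • (fun x : ι → ZMod p => x e) := by
    funext x
    simp only [Finset.sum_apply, Pi.smul_apply, smul_eq_mul]
    conv_lhs => rw [← Finset.univ_sum_single x]
    rw [map_sum]
    refine sum_congr rfl fun e _ => ?_
    have : (Pi.single e (x e) : ι → ZMod p) = x e • Pi.single e 1 := by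
      rw [← Pi.single_smul, smul_eq_mul, mul_one]
    rw [this, map_smul, smul_eq_mul, mul_comm]
  rw [this]
  exact Submodule.sum_mem _ fun e _ => Submodule.smul_mem _ _ (coord_mem_Pol e)

/-! ### Reduction of exponents -/

/-- the reduced exponent -/
def red (p n : ℕ) : ℕ := if n = 0 then 0 else (n - 1) % (p - 1) + 1

omit [Fact p.Prime] in
theorem red_le (n : ℕ) : red p n ≤ n := by
  unfold red
  split_ifs with h
  · omega
  · have := Nat.mod_le (n - 1) (p - 1)
    omega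

theorem red_lt (n : ℕ) : red p n < p := by
  have hp := (Fact.out : p.Prime).two_le
  unfold red
  split_ifs with h
  · omega
  · have := Nat.mod_lt (n - 1) (show 0 < p - 1 by omega)
    omega

theorem pow_red (x : ZMod p) (n : ℕ) : x ^ red p n = x ^ n := by
  unfold red
  split_ifs with h
  · rw [h]
  · rcases eq_or_ne x 0 with rfl | hx
    · rw [zero_pow h, zero_pow (by omega)]
    · have h1 : n = (p - 1) * ((n - 1) / (p - 1)) + ((n - 1) % (p - 1) + 1) := by
        have := Nat.div_add_mod (n - 1) (p - 1)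
        omega
      conv_rhs => rw [h1, pow_add, pow_mul, ZMod.pow_card_sub_one_eq_one hx, one_pow, one_mul]

theorem mono_red (m : ι → ℕ) : (mono (p := p) (fun e => red p (m e))) = mono m := by
  funext x
  exact prod_congr rfl fun e _ => pow_red (x e) (m e)

/-! ### Low monomials -/

variable (p) in
/-- polynomial functions in `s` variables of low degree -/
def Low (s t : ℕ) : Submodule (ZMod p) ((Fin s → ZMod p) → ZMod p) :=
  Submodule.span _ {f | ∃ m : Fin s → ℕ, 6 * ∑ e, m e + (p - 1) * t ≤ 3 * (p - 1) * s ∧ f = mono m}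

theorem Pol_le_Low {s t D : ℕ} (h : 6 * D + (p - 1) * t ≤ 3 * (p - 1) * s) :
    Pol p (Fin s) D ≤ Low p s t :=
  Submodule.span_mono fun _ ⟨m, hm, e⟩ => ⟨m, by omega, e⟩

theorem finrank_Low_le (s t : ℕ) : finrank (ZMod p) (Low p s t) ≤
    (univ.filter (fun m : Fin s → Fin p =>
      6 * ∑ e, (m e : ℕ) + (p - 1) * t ≤ 3 * (p - 1) * s)).card := by
  classical
  set M := univ.filter (fun m : Fin s → Fin p =>
      6 * ∑ e, (m e : ℕ) + (p - 1) * t ≤ 3 * (p - 1) * s) with hM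
  have h1 : Low p s t ≤ Submodule.span (ZMod p)
      ((M.image (fun m => mono (p := p) (fun e => (m e : ℕ))) : Finset _) :
        Set ((Fin s → ZMod p) → ZMod p)) := by
    refine Submodule.span_mono ?_
    rintro _ ⟨m, hm, rfl⟩
    rw [coe_image]
    refine ⟨fun e => ⟨red p (m e), red_lt (m e)⟩, ?_, mono_red m⟩
    rw [mem_coe, hM, mem_filter]
    refine ⟨mem_univ _, ?_⟩
    have : ∑ e, red p (m e) ≤ ∑ e, m e := sum_le_sum fun e _ => red_le (m e)
    change 6 * ∑ e, red p (m e) + (p - 1) * t ≤ _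
    omega
  refine (Submodule.finrank_mono h1).trans ((finrank_span_finset_le_card _).trans card_image_le)

theorem sum_exp_le : ∑ a : Fin p, Real.exp (-(2 / (3 * ((p : ℝ) - 1)) * ((a : ℝ) - (p - 1) / 2))) ≤
    p * Real.exp (1 / 18) := by
  have hp : (2 : ℝ) ≤ p := by exact_mod_cast (Fact.out : p.Prime).two_le
  set c : Fin p → ℝ := fun a => 2 / (3 * ((p : ℝ) - 1)) * ((a : ℝ) - (p - 1) / 2) with hc
  have hcb : ∀ a, |c a| ≤ 1 / 3 := by
    intro a
    have ha0 : (0 : ℝ) ≤ (a : ℝ) := by positivity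
    have ha1 : (a : ℝ) ≤ p - 1 := by
      have h := a.2
      have : ((a : ℕ) : ℝ) + 1 ≤ p := by exact_mod_cast h
      linarith
    have hpos : (0 : ℝ) < 3 * ((p : ℝ) - 1) := by linarith
    have e : c a = (2 * ((a : ℝ) - (p - 1) / 2)) / (3 * ((p : ℝ) - 1)) := by
      rw [hc]; ring
    rw [e, abs_le, le_div_iff₀ hpos, div_le_iff₀ hpos]
    constructor <;> linarith
  have hrev : ∀ a : Fin p, c (Fin.rev a) = - c a := by
    intro a
    have : ((Fin.rev a : Fin p) : ℝ) = p - 1 - (a : ℝ) := by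
      rw [Fin.val_rev]
      have h := a.2
      rw [Nat.cast_sub (by omega)]
      push_cast
      ring
    rw [hc]
    simp only [this]
    ring
  have h1 : ∑ a : Fin p, Real.exp (-(c a)) = ∑ a : Fin p, Real.exp (c a) := by
    rw [← Equiv.sum_comp Fin.revPerm]
    exact sum_congr rfl fun a _ => by rw [Fin.revPerm_apply, hrev, neg_neg]
  have h2 : ∑ a : Fin p, Real.exp (-(c a)) = ∑ a : Fin p, Real.cosh (c a) := by
    simp_rw [Real.cosh_eq, ← sum_div, sum_add_distrib]
    rw [← h1]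
    ring
  change ∑ a : Fin p, Real.exp (-(c a)) ≤ _
  rw [h2]
  have h3 : ∀ a : Fin p, Real.cosh (c a) ≤ Real.exp (1 / 18) := by
    intro a
    refine (Real.cosh_le_exp_half_sq (c a)).trans (Real.exp_le_exp.2 ?_)
    have := hcb a
    have h4 : c a ^ 2 ≤ (1 / 3) ^ 2 := by
      rw [← sq_abs]
      exact pow_le_pow_left₀ (abs_nonneg _) this 2
    linarith
  calc ∑ a : Fin p, Real.cosh (c a) ≤ ∑ _a : Fin p, Real.exp (1 / 18) := sum_le_sum fun a _ => h3 a
    _ = p * Real.exp (1 / 18) := by simp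

theorem card_low_le {s t : ℕ} (hst : s ≤ t) : ((univ.filter (fun m : Fin s → Fin p =>
      6 * ∑ e, (m e : ℕ) + (p - 1) * t ≤ 3 * (p - 1) * s)).card : ℝ) ≤
    (p : ℝ) ^ s * Real.exp (-(t : ℝ) / 18) := by
  have hp2 := (Fact.out : p.Prime).two_le
  have hp : (2 : ℝ) ≤ p := by exact_mod_cast hp2
  have hp0 : (p : ℝ) - 1 ≠ 0 := by linarith
  set c : Fin p → ℝ := fun a => 2 / (3 * ((p : ℝ) - 1)) * ((a : ℝ) - (p - 1) / 2) with hc
  have h1 : ∀ m : Fin s → Fin p, 6 * ∑ e, (m e : ℕ) + (p - 1) * t ≤ 3 * (p - 1) * s →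
      1 ≤ Real.exp (-(t : ℝ) / 9) * ∏ e, Real.exp (-(c (m e))) := by
    intro m hm
    rw [← Real.exp_sum, ← Real.exp_add]
    refine Real.one_le_exp ?_
    have h2 : (6 : ℝ) * ∑ e, ((m e : ℕ) : ℝ) + ((p : ℝ) - 1) * t ≤ 3 * ((p : ℝ) - 1) * s := by
      have : ((6 * ∑ e, (m e : ℕ) + (p - 1) * t : ℕ) : ℝ) ≤ ((3 * (p - 1) * s : ℕ) : ℝ) := by
        exact_mod_cast hm
      push_cast at this
      rw [Nat.cast_sub (by omega)] at this
      simpa using this
    have h3 : ∑ e, -(c (m e)) =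
        -(2 / (3 * ((p : ℝ) - 1)) * (∑ e, ((m e : ℕ) : ℝ) - s * ((p - 1) / 2))) := by
      rw [sum_neg_distrib, hc]
      simp only
      rw [← mul_sum, sum_sub_distrib]
      simp
    rw [h3]
    have h4 : -(2 / (3 * ((p : ℝ) - 1)) * (∑ e, ((m e : ℕ) : ℝ) - s * ((p - 1) / 2))) =
        (3 * ((p : ℝ) - 1) * s - 6 * ∑ e, ((m e : ℕ) : ℝ)) / (9 * ((p : ℝ) - 1)) := by
      field_simp
      ring
    rw [h4]
    have h5 : -(t : ℝ) / 9 = -(((p : ℝ) - 1) * t) / (9 * ((p : ℝ) - 1)) := by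
      field_simp
    rw [h5, ← add_div]
    exact div_nonneg (by linarith) (by linarith)
  have h2 : ((univ.filter (fun m : Fin s → Fin p =>
      6 * ∑ e, (m e : ℕ) + (p - 1) * t ≤ 3 * (p - 1) * s)).card : ℝ) ≤
      ∑ m : Fin s → Fin p, Real.exp (-(t : ℝ) / 9) * ∏ e, Real.exp (-(c (m e))) := by
    rw [card_eq_sum_ones, Nat.cast_sum]
    push_cast
    refine (sum_le_sum fun m hm => h1 m (mem_filter.1 hm).2).trans ?_
    refine sum_le_sum_of_subset_of_nonneg (filter_subset _ _) fun m _ _ => ?_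
    positivity
  refine h2.trans ?_
  rw [← mul_sum]
  have h3 : ∑ m : Fin s → Fin p, ∏ e, Real.exp (-(c (m e))) =
      (∑ a : Fin p, Real.exp (-(c a))) ^ s := by
    rw [Fintype.sum_pow]
  rw [h3]
  have h4 : (∑ a : Fin p, Real.exp (-(c a))) ^ s ≤ (p * Real.exp (1 / 18)) ^ s :=
    pow_le_pow_left₀ (sum_nonneg fun a _ => (Real.exp_pos _).le) sum_exp_le s
  calc Real.exp (-(t : ℝ) / 9) * (∑ a : Fin p, Real.exp (-(c a))) ^ s
      ≤ Real.exp (-(t : ℝ) / 9) * (p * Real.exp (1 / 18)) ^ s := by gcongr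
    _ = (p : ℝ) ^ s * Real.exp (-(t : ℝ) / 9 + s * (1 / 18)) := by
        rw [mul_pow, ← Real.exp_nat_mul, Real.exp_add]
        ring
    _ ≤ (p : ℝ) ^ s * Real.exp (-(t : ℝ) / 18) := by
        have : (s : ℝ) ≤ t := by exact_mod_cast hst
        gcongr
        linarith

theorem finrank_Low_real {s t : ℕ} (hst : s ≤ t) :
    (finrank (ZMod p) (Low p s t) : ℝ) ≤ (p : ℝ) ^ s * Real.exp (-(t : ℝ) / 18) :=
  le_trans (by exact_mod_cast finrank_Low_le s t) (card_low_le hst)

end Pool.Agent.TH360.RS
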