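import Pool.Agent.TH360.RS.Poly

/-!
# The indicator of a subspace at a sum of three vectors splits into three low parts
-/

set_option autoImplicit false

namespace Pool.Agent.TH360.RS

open Finset Module

variable {p : ℕ} [Fact p.Prime]

section
variable {T : Type*} [AddCommGroup T] [Module (ZMod p) T] [Module.Finite (ZMod p) T]

theorem exists_coord (N : Submodule (ZMod p) T) :
    ∃ π : T →ₗ[ZMod p] (Fin (finrank (ZMod p) T - finrank (ZMod p) N) → ZMod p),
      LinearMap.ker π = N := by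
  have h : finrank (ZMod p) (T ⧸ N) =
      finrank (ZMod p) (Fin (finrank (ZMod p) T - finrank (ZMod p) N) → ZMod p) := by
    rw [finrank_fin_fun, Submodule.finrank_quotient]
  refine ⟨(LinearEquiv.ofFinrankEq _ _ h).toLinearMap.comp N.mkQ, ?_⟩
  rw [LinearEquiv.ker_comp, Submodule.ker_mkQ]

/-- linear coordinates with kernel `N` -/
noncomputable def coord (N : Submodule (ZMod p) T) :
    T →ₗ[ZMod p] (Fin (finrank (ZMod p) T - finrank (ZMod p) N) → ZMod p) :=
  (exists_coord N).choose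

theorem ker_coord (N : Submodule (ZMod p) T) : LinearMap.ker (coord N) = N :=
  (exists_coord N).choose_spec

/-- the functions on `T` that are low polynomials modulo `N` -/
noncomputable def LowT (N : Submodule (ZMod p) T) : Submodule (ZMod p) (T → ZMod p) :=
  (Low p (finrank (ZMod p) T - finrank (ZMod p) N) (finrank (ZMod p) T)).map
    (LinearMap.funLeft (ZMod p) (ZMod p) (coord N))

theorem finrank_LowT_le (N : Submodule (ZMod p) T) : (finrank (ZMod p) (LowT N) : ℝ) ≤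
    (p : ℝ) ^ (finrank (ZMod p) T - finrank (ZMod p) N) *
      Real.exp (-(finrank (ZMod p) T : ℝ) / 18) := by
  refine le_trans ?_ (finrank_Low_real (Nat.sub_le _ _))
  exact_mod_cast Submodule.finrank_map_le _ _

theorem factor {ι : Type*} [Fintype ι] (N : Submodule (ZMod p) T)
    (ψ : T →ₗ[ZMod p] (ι → ZMod p)) (h : N ≤ LinearMap.ker ψ) :
    ∃ ψ' : (Fin (finrank (ZMod p) T - finrank (ZMod p) N) → ZMod p) →ₗ[ZMod p] (ι → ZMod p),
      ∀ u, ψ' (coord N u) = ψ u := by
  have h' : LinearMap.ker (coord N) ≤ LinearMap.ker ψ := by rwa [ker_coord]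
  obtain ⟨ψ', hψ⟩ := LinearMap.exists_extend
    (((LinearMap.ker (coord N)).liftQ ψ h').comp
      (coord N).quotKerEquivRange.symm.toLinearMap)
  refine ⟨ψ', fun u => ?_⟩
  have := LinearMap.congr_fun hψ ⟨coord N u, LinearMap.mem_range_self _ u⟩
  simp only [LinearMap.comp_apply, Submodule.subtype_apply] at this
  rw [this]
  have e : (coord N).quotKerEquivRange.symm ⟨coord N u, LinearMap.mem_range_self _ u⟩ =
      Submodule.Quotient.mk u := by
    rw [LinearEquiv.symm_apply_eq]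
    ext1
    rw [LinearMap.quotKerEquivRange_apply_mk]
  rw [LinearEquiv.coe_coe, e]
  exact Submodule.liftQ_apply _ _ _

theorem mono_mem_LowT {ι : Type*} [Fintype ι] (N : Submodule (ZMod p) T)
    (ψ : T →ₗ[ZMod p] (ι → ZMod p)) (h : N ≤ LinearMap.ker ψ) (m : ι → ℕ)
    (hm : 6 * ∑ e, m e + (p - 1) * finrank (ZMod p) T ≤
      3 * (p - 1) * (finrank (ZMod p) T - finrank (ZMod p) N)) :
    (fun u => mono m (ψ u)) ∈ LowT N := by
  obtain ⟨ψ', hψ'⟩ := factor N ψ h
  refine ⟨∏ e, (fun x => (LinearMap.proj e ∘ₗ ψ') x) ^ m e, ?_, ?_⟩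
  · refine Pol_le_Low hm ?_
    refine prod_mem_Pol univ _ _ fun e _ => ?_
    have := pow_mem_Pol (linear_mem_Pol (LinearMap.proj e ∘ₗ ψ')) (m e)
    rwa [mul_one] at this
  · funext u
    simp [LinearMap.funLeft_apply, mono, Finset.prod_apply, hψ']

end

theorem delta_mem {ι : Type*} [Fintype ι] :
    (fun x : ι ⊕ ι ⊕ ι → ZMod p => ∏ e : ι, (1 - (x (Sum.inl e) + x (Sum.inr (Sum.inl e)) +
      x (Sum.inr (Sum.inr e))) ^ (p - 1))) ∈ Pol p (ι ⊕ ι ⊕ ι) ((p - 1) * Fintype.card ι) := by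
  have h1 : ∀ e : ι, (fun x : ι ⊕ ι ⊕ ι → ZMod p => (1 - (x (Sum.inl e) + x (Sum.inr (Sum.inl e)) +
      x (Sum.inr (Sum.inr e))) ^ (p - 1))) ∈ Pol p (ι ⊕ ι ⊕ ι) (p - 1) := by
    intro e
    have a : (fun x : ι ⊕ ι ⊕ ι → ZMod p => x (Sum.inl e) + x (Sum.inr (Sum.inl e)) +
      x (Sum.inr (Sum.inr e))) ∈ Pol p (ι ⊕ ι ⊕ ι) 1 :=
      Submodule.add_mem _ (Submodule.add_mem _ (coord_mem_Pol _) (coord_mem_Pol _))
        (coord_mem_Pol _)
    have b := pow_mem_Pol a (p - 1)
    rw [mul_one] at b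
    exact Submodule.sub_mem _ (one_mem_Pol _) b
  have h2 := prod_mem_Pol univ _ _ fun e (_ : e ∈ univ) => h1 e
  have h3 : ∑ _e : ι, (p - 1) = (p - 1) * Fintype.card ι := by
    rw [sum_const, card_univ, smul_eq_mul, mul_comm]
  rw [h3] at h2
  convert h2 using 1
  funext x
  simp

theorem delta_eq {ι : Type*} [Fintype ι] (a b c : ι → ZMod p) [Decidable (a + b + c = 0)] :
    (∏ e : ι, (1 - (a e + b e + c e) ^ (p - 1))) = if a + b + c = 0 then 1 else 0 := by
  have hp := (Fact.out : p.Prime).two_le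
  split_ifs with h
  · refine prod_eq_one fun e _ => ?_
    have := congr_fun h e
    simp only [Pi.add_apply, Pi.zero_apply] at this
    rw [this, zero_pow (by omega), sub_zero]
  · obtain ⟨e, he⟩ := Function.ne_iff.1 h
    refine prod_eq_zero (mem_univ e) ?_
    rw [ZMod.pow_card_sub_one_eq_one, sub_self]
    simpa using he

variable {T : Type*} [AddCommGroup T] [Module (ZMod p) T] [Module.Finite (ZMod p) T]

open Classical in
/-- **Decomposition.** -/
theorem decomp (N₁ N₂ N₃ Q : Submodule (ZMod p) T) (h₁ : N₁ ≤ Q) (h₂ : N₂ ≤ Q) (h₃ : N₃ ≤ Q)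
    (hd : 2 * (finrank (ZMod p) T - finrank (ZMod p) Q) + finrank (ZMod p) T ≤
      (finrank (ZMod p) T - finrank (ZMod p) N₁) + (finrank (ZMod p) T - finrank (ZMod p) N₂) +
        (finrank (ZMod p) T - finrank (ZMod p) N₃)) :
    ∃ Φ₁ Φ₂ Φ₃ : T → T → T → ZMod p,
      (∀ u v w, Φ₁ u v w + Φ₂ u v w + Φ₃ u v w = if u + v + w ∈ Q then 1 else 0) ∧
      (∀ v w, (fun u => Φ₁ u v w) ∈ LowT N₁) ∧ (∀ u w, (fun v => Φ₂ u v w) ∈ LowT N₂) ∧
      (∀ u v, (fun w => Φ₃ u v w) ∈ LowT N₃) := by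
  set t := finrank (ZMod p) T with ht
  set r := t - finrank (ZMod p) Q with hr
  obtain ⟨ψ, hk⟩ : ∃ ψ : T →ₗ[ZMod p] (Fin r → ZMod p), LinearMap.ker ψ = Q := exists_coord Q
  have key : ∀ f ∈ Pol p (Fin r ⊕ Fin r ⊕ Fin r) ((p - 1) * r),
      ∃ Φ₁ Φ₂ Φ₃ : T → T → T → ZMod p,
      (∀ u v w, Φ₁ u v w + Φ₂ u v w + Φ₃ u v w =
        f (Sum.elim (ψ u) (Sum.elim (ψ v) (ψ w)))) ∧
      (∀ v w, (fun u => Φ₁ u v w) ∈ LowT N₁) ∧ (∀ u w, (fun v => Φ₂ u v w) ∈ LowT N₂) ∧
      (∀ u v, (fun w => Φ₃ u v w) ∈ LowT N₃) := by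
    intro f hf
    rw [Pol] at hf
    induction hf using Submodule.span_induction with
    | mem f hf =>
      obtain ⟨m, hm, rfl⟩ := hf
      set m₁ : Fin r → ℕ := fun e => m (Sum.inl e) with hm₁
      set m₂ : Fin r → ℕ := fun e => m (Sum.inr (Sum.inl e)) with hm₂
      set m₃ : Fin r → ℕ := fun e => m (Sum.inr (Sum.inr e)) with hm₃
      have hs : ∑ e, m e = ∑ e, m₁ e + ∑ e, m₂ e + ∑ e, m₃ e := by
        rw [Fintype.sum_sum_type, Fintype.sum_sum_type, add_assoc]
      have hmul : ∀ u v w, mono (p := p) m (Sum.elim (ψ u) (Sum.elim (ψ v) (ψ w))) =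
          mono m₁ (ψ u) * mono m₂ (ψ v) * mono m₃ (ψ w) := by
        intro u v w
        unfold mono
        rw [Fintype.prod_sum_type, Fintype.prod_sum_type, mul_assoc]
        rfl
      have hcases : (6 * ∑ e, m₁ e + (p - 1) * t ≤ 3 * (p - 1) * (t - finrank (ZMod p) N₁)) ∨
          (6 * ∑ e, m₂ e + (p - 1) * t ≤ 3 * (p - 1) * (t - finrank (ZMod p) N₂)) ∨
          (6 * ∑ e, m₃ e + (p - 1) * t ≤ 3 * (p - 1) * (t - finrank (ZMod p) N₃)) := by
        by_contra hcon
        push Not at hcon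
        obtain ⟨c1, c2, c3⟩ := hcon
        have h4 := Nat.mul_le_mul_left (3 * (p - 1)) hd
        rw [hs] at hm
        generalize t - finrank (ZMod p) N₁ = s₁ at *
        generalize t - finrank (ZMod p) N₂ = s₂ at *
        generalize t - finrank (ZMod p) N₃ = s₃ at *
        generalize p - 1 = P at *
        generalize ∑ e, m₁ e = M₁ at *
        generalize ∑ e, m₂ e = M₂ at *
        generalize ∑ e, m₃ e = M₃ at *
        nlinarith
      have hN : ∀ N : Submodule (ZMod p) T, N ≤ Q → N ≤ LinearMap.ker ψ := fun N hN => by rwa [hk]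
      rcases hcases with hc | hc | hc
      · refine ⟨fun u v w => mono m₁ (ψ u) * mono m₂ (ψ v) * mono m₃ (ψ w), fun _ _ _ => 0,
          fun _ _ _ => 0, fun u v w => ?_, fun v w => ?_, fun _ _ => Submodule.zero_mem _,
          fun _ _ => Submodule.zero_mem _⟩
        · rw [hmul, add_zero, add_zero]
        · have : (fun u => mono (p := p) m₁ (ψ u) * mono m₂ (ψ v) * mono m₃ (ψ w)) =
            (mono (p := p) m₂ (ψ v) * mono m₃ (ψ w)) • (fun u => mono m₁ (ψ u)) := by
            funext u; simp only [Pi.smul_apply, smul_eq_mul]; ring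
          rw [this]
          exact Submodule.smul_mem _ _ (mono_mem_LowT N₁ ψ (hN _ h₁) m₁ hc)
      · refine ⟨fun _ _ _ => 0, fun u v w => mono m₁ (ψ u) * mono m₂ (ψ v) * mono m₃ (ψ w),
          fun _ _ _ => 0, fun u v w => ?_, fun _ _ => Submodule.zero_mem _, fun u w => ?_,
          fun _ _ => Submodule.zero_mem _⟩
        · rw [hmul, add_zero, zero_add]
        · have : (fun v => mono (p := p) m₁ (ψ u) * mono m₂ (ψ v) * mono m₃ (ψ w)) =
            (mono (p := p) m₁ (ψ u) * mono m₃ (ψ w)) • (fun v => mono m₂ (ψ v)) := by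
            funext v; simp only [Pi.smul_apply, smul_eq_mul]; ring
          rw [this]
          exact Submodule.smul_mem _ _ (mono_mem_LowT N₂ ψ (hN _ h₂) m₂ hc)
      · refine ⟨fun _ _ _ => 0, fun _ _ _ => 0,
          fun u v w => mono m₁ (ψ u) * mono m₂ (ψ v) * mono m₃ (ψ w), fun u v w => ?_,
          fun _ _ => Submodule.zero_mem _, fun _ _ => Submodule.zero_mem _, fun u v => ?_⟩
        · rw [hmul, zero_add, zero_add]
        · have : (fun w => mono (p := p) m₁ (ψ u) * mono m₂ (ψ v) * mono m₃ (ψ w)) =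
            (mono (p := p) m₁ (ψ u) * mono m₂ (ψ v)) • (fun w => mono m₃ (ψ w)) := by
            funext w; simp only [Pi.smul_apply, smul_eq_mul]
          rw [this]
          exact Submodule.smul_mem _ _ (mono_mem_LowT N₃ ψ (hN _ h₃) m₃ hc)
    | zero =>
      exact ⟨fun _ _ _ => 0, fun _ _ _ => 0, fun _ _ _ => 0, fun _ _ _ => by simp,
        fun _ _ => Submodule.zero_mem _, fun _ _ => Submodule.zero_mem _,
        fun _ _ => Submodule.zero_mem _⟩
    | add f g _ _ hf hg =>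
      obtain ⟨a₁, a₂, a₃, a0, a1, a2, a3⟩ := hf
      obtain ⟨b₁, b₂, b₃, b0, b1, b2, b3⟩ := hg
      refine ⟨fun u v w => a₁ u v w + b₁ u v w, fun u v w => a₂ u v w + b₂ u v w,
        fun u v w => a₃ u v w + b₃ u v w, fun u v w => ?_,
        fun v w => Submodule.add_mem _ (a1 v w) (b1 v w),
        fun v w => Submodule.add_mem _ (a2 v w) (b2 v w),
        fun v w => Submodule.add_mem _ (a3 v w) (b3 v w)⟩
      rw [Pi.add_apply, ← a0, ← b0]
      ring
    | smul c f _ hf =>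
      obtain ⟨a₁, a₂, a₃, a0, a1, a2, a3⟩ := hf
      refine ⟨fun u v w => c * a₁ u v w, fun u v w => c * a₂ u v w,
        fun u v w => c * a₃ u v w, fun u v w => ?_,
        fun v w => Submodule.smul_mem _ c (a1 v w),
        fun v w => Submodule.smul_mem _ c (a2 v w),
        fun v w => Submodule.smul_mem _ c (a3 v w)⟩
      rw [Pi.smul_apply, ← a0, smul_eq_mul]
      ring
  have hδ := delta_mem (p := p) (ι := Fin r)
  rw [Fintype.card_fin] at hδ
  obtain ⟨Φ₁, Φ₂, Φ₃, h0, e1, e2, e3⟩ := key _ hδ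
  refine ⟨Φ₁, Φ₂, Φ₃, fun u v w => ?_, e1, e2, e3⟩
  rw [h0]
  simp only [Sum.elim_inl, Sum.elim_inr]
  rw [delta_eq]
  have : ψ u + ψ v + ψ w = 0 ↔ u + v + w ∈ Q := by
    rw [← map_add, ← map_add, ← LinearMap.mem_ker, hk]
  simp only [this]

end Pool.Agent.TH360.RS
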